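import Pool.Agent.H91.GS.IFT

/-!
# A map whose derivative is nowhere injective is constant along a curve
-/

set_option autoImplicit false

open scoped Topology ContDiff
open Set Filter

namespace Pool.Agent.H77.ND

open Pool.Agent.H91.GE

variable {N G : Type*} [NormedAddCommGroup N] [NormedSpace ℝ N] [FiniteDimensional ℝ N]
  [NormedAddCommGroup G] [NormedSpace ℝ G] [FiniteDimensional ℝ G]

/-- If the derivative of `f` is nowhere injective on the nonempty open set `U`, then `f` is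
constant along some regular curve in `U`. -/
theorem exists_fiber_curve {U : Set N} (hU : IsOpen U) (hne : U.Nonempty) {f : N → G}
    (hf : ContDiffOn ℝ ∞ f U) (hni : ∀ q ∈ U, ∃ k, k ≠ 0 ∧ fderiv ℝ f q k = 0) :
    ∃ q₁ ∈ U, ∃ (c : ℝ → N) (k : N), k ≠ 0 ∧ c 0 = q₁ ∧ HasDerivAt c k 0 ∧
      ∀ᶠ τ in 𝓝 (0 : ℝ), c τ ∈ U ∧ ContinuousAt c τ ∧ f (c τ) = f q₁ := by
  -- a point of maximal rank
  let rk : N → ℕ := fun q => Module.finrank ℝ (LinearMap.range (fderiv ℝ f q).toLinearMap)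
  have hbdd : ∀ q, rk q ≤ Module.finrank ℝ G := fun q => Submodule.finrank_le _
  obtain ⟨q₁, hq₁, hmax⟩ : ∃ q₁ ∈ U, ∀ q ∈ U, rk q ≤ rk q₁ := by
    by_contra hcon
    push Not at hcon
    have h1 : ∀ n : ℕ, ∃ q ∈ U, n ≤ rk q := by
      intro n
      induction n with
      | zero => obtain ⟨q, hq⟩ := hne; exact ⟨q, hq, Nat.zero_le _⟩
      | succ n ih =>
        obtain ⟨q, hq, hn⟩ := ih
        obtain ⟨q', hq', hlt⟩ := hcon q hq
        exact ⟨q', hq', by omega⟩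
    obtain ⟨q, -, hn⟩ := h1 (Module.finrank ℝ G + 1)
    have := hbdd q
    omega
  set L : N →L[ℝ] G := fderiv ℝ f q₁ with hL
  set R : Submodule ℝ G := LinearMap.range L.toLinearMap with hR
  obtain ⟨k, hk0, hk⟩ := hni q₁ hq₁
  -- a projection on the range and a section
  obtain ⟨π₀, hπ₀⟩ := R.subtype.exists_leftInverse_of_injective (Submodule.ker_subtype R)
  let π : G →L[ℝ] R := LinearMap.toContinuousLinearMap π₀
  have hπ : ∀ r : R, π (r : G) = r := fun r => congrArg (fun T : R →ₗ[ℝ] R => T r) hπ₀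
  obtain ⟨ι₀, hι₀⟩ := (L.toLinearMap.rangeRestrict).exists_rightInverse_of_surjective
    (LinearMap.range_rangeRestrict _)
  let ι : R →L[ℝ] N := LinearMap.toContinuousLinearMap ι₀
  have hι : ∀ r : R, L (ι r) = (r : G) := fun r =>
    congrArg Subtype.val (congrArg (fun T : R →ₗ[ℝ] R => T r) hι₀)
  -- the implicit function
  let J : ℝ × R → N := fun y => q₁ + (y.1 • k + ι y.2)
  have hJc : ContDiff ℝ ∞ J :=
    contDiff_const.add ((contDiff_fst.smul contDiff_const).add (ι.contDiff.comp contDiff_snd))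
  have hJ0 : J (0, 0) = q₁ := by
    show q₁ + ((0 : ℝ) • k + ι 0) = q₁
    rw [zero_smul, map_zero, add_zero, add_zero]
  have hUo : IsOpen (J ⁻¹' U) := hU.preimage hJc.continuous
  let Fn : ℝ × R → R := fun y => π (f (J y))
  have hFn : ContDiffOn ℝ ∞ Fn (J ⁻¹' U) :=
    π.contDiff.comp_contDiffOn (hf.comp hJc.contDiffOn fun y hy => hy)
  have h0 : ((0, 0) : ℝ × R) ∈ J ⁻¹' U := by
    show J (0, 0) ∈ U
    rw [hJ0]; exact hq₁
  have hJd : ∀ (y : ℝ × R) (a : ℝ) (r : R), HasDerivAt (fun s : ℝ => J (y.1 + s * a, y.2 + s • r))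
      (a • k + ι r) 0 := by
    intro y a r
    have e1 : HasDerivAt (fun s : ℝ => y.1 + s * a) a 0 := by
      simpa using ((hasDerivAt_id (0 : ℝ)).mul_const a).const_add y.1
    have e2 : HasDerivAt (fun s : ℝ => y.2 + s • r) r 0 := by
      simpa using ((hasDerivAt_id (0 : ℝ)).smul_const r).const_add y.2
    exact ((e1.smul_const k).add (ι.hasFDerivAt.comp_hasDerivAt (0 : ℝ) e2)).const_add q₁
  have hFd : ∀ b : R, fderiv ℝ Fn (0, 0) (0, b) = b := by
    intro b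
    have e1 : HasFDerivAt Fn (fderiv ℝ Fn (0, 0)) (0, 0) := hasFDerivAt_of_open hUo hFn h0
    have e2 : HasDerivAt (fun s : ℝ => (((0 : ℝ) + s * 0, (0 : R) + s • b) : ℝ × R)) (0, b) 0 := by
      have e3 : HasDerivAt (fun s : ℝ => (0 : ℝ) + s * 0) 0 0 := by
        simpa using (hasDerivAt_const (0 : ℝ) (0 : ℝ))
      have e4 : HasDerivAt (fun s : ℝ => (0 : R) + s • b) b 0 := by
        simpa using ((hasDerivAt_id (0 : ℝ)).smul_const b).const_add (0 : R)
      exact e3.prodMk e4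
    have e3 : HasDerivAt (fun s : ℝ => Fn ((0 : ℝ) + s * 0, (0 : R) + s • b))
        (fderiv ℝ Fn (0, 0) (0, b)) 0 := by
      refine HasFDerivAt.comp_hasDerivAt (l := Fn) (f := fun s : ℝ =>
        (((0 : ℝ) + s * 0, (0 : R) + s • b) : ℝ × R)) (0 : ℝ) ?_ e2
      simpa using e1
    have e4 : HasDerivAt (fun s : ℝ => f (J ((0 : ℝ) + s * 0, (0 : R) + s • b)))
        (L ((0 : ℝ) • k + ι b)) 0 := by
      have e5 : HasFDerivAt f L (J ((0 : ℝ) + 0 * 0, (0 : R) + (0 : ℝ) • b)) := by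
        have e6 : J ((0 : ℝ) + 0 * 0, (0 : R) + (0 : ℝ) • b) = q₁ := by
          rw [mul_zero, add_zero, zero_smul, add_zero]; exact hJ0
        rw [e6]; exact hasFDerivAt_of_open hU hf hq₁
      exact HasFDerivAt.comp_hasDerivAt (l := f) (f := fun s : ℝ =>
        J ((0 : ℝ) + s * 0, (0 : R) + s • b)) (0 : ℝ) e5 (hJd (0, 0) 0 b)
    have e5 := e3.unique (π.hasFDerivAt.comp_hasDerivAt (0 : ℝ) e4)
    rw [e5, zero_smul, zero_add, hι, hπ]
  have hbij : Function.Bijective fun b : R => fderiv ℝ Fn (0, 0) (0, b) := by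
    have h1 : (fun b : R => fderiv ℝ Fn (0, 0) (0, b)) = id := funext hFd
    rw [h1]; exact Function.bijective_id
  obtain ⟨O, V, β, hO, h0O, hV, h0V, hOV, hβ, hβ0, hβ1⟩ := exists_implicit hUo hFn h0 hbij
  let c : ℝ → N := fun τ => J (τ, β τ)
  have hβd : ∀ τ ∈ O, DifferentiableAt ℝ β τ := fun τ hτ =>
    ((hβ τ hτ).contDiffAt (hO.mem_nhds hτ)).differentiableAt (by simp)
  have hcU : ∀ τ ∈ O, c τ ∈ U := fun τ hτ => hOV ⟨hτ, (hβ1 τ hτ).1⟩
  have hcd : ∀ τ ∈ O, HasDerivAt c (k + ι (deriv β τ)) τ := by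
    intro τ hτ
    have e1 : HasDerivAt (fun s : ℝ => s • k) k τ := by
      simpa using (hasDerivAt_id τ).smul_const k
    exact (e1.add (ι.hasFDerivAt.comp_hasDerivAt τ (hβd τ hτ).hasDerivAt)).const_add q₁
  have hconst : ∀ τ ∈ O, π (f (c τ)) = π (f q₁) := by
    intro τ hτ
    have e1 : Fn (τ, β τ) = Fn (0, 0) := (hβ1 τ hτ).2.1
    have e2 : Fn (0, 0) = π (f q₁) := by
      show π (f (J (0, 0))) = _
      rw [hJ0]
    rw [← e2, ← e1]
  have hfd : ∀ τ ∈ O, HasDerivAt (fun τ => f (c τ)) (fderiv ℝ f (c τ) (k + ι (deriv β τ))) τ :=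
    fun τ hτ => (hasFDerivAt_of_open hU hf (hcU τ hτ)).comp_hasDerivAt τ (hcd τ hτ)
  have hpd : ∀ τ ∈ O, π (fderiv ℝ f (c τ) (k + ι (deriv β τ))) = 0 := by
    intro τ hτ
    have e1 := π.hasFDerivAt.comp_hasDerivAt τ (hfd τ hτ)
    have e2 : (fun τ => π (f (c τ))) =ᶠ[𝓝 τ] fun _ => π (f q₁) := by
      filter_upwards [hO.mem_nhds hτ] with s hs
      exact hconst s hs
    exact e1.unique ((hasDerivAt_const τ (π (f q₁))).congr_of_eventuallyEq e2)
  have hc0 : c 0 = q₁ := by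
    show J (0, β 0) = q₁
    rw [hβ0]; exact hJ0
  have hβd0 : deriv β 0 = 0 := by
    have e1 := hpd 0 h0O
    rw [hc0, ← hL, map_add, hk, zero_add, hι, hπ] at e1
    exact e1
  -- near `q₁` the kernels agree
  have hsurj : ∀ᶠ q in 𝓝 q₁, Function.Surjective (π ∘L fderiv ℝ f q : N →L[ℝ] R) := by
    have e1 : ContinuousAt (fun q => (π ∘L fderiv ℝ f q) ∘L ι) q₁ :=
      (continuousAt_const.clm_comp ((hf.continuousOn_fderiv_of_isOpen hU (by simp)).continuousAt
        (hU.mem_nhds hq₁))).clm_comp continuousAt_const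
    have e2 : IsOpen {T : R →L[ℝ] R | Function.Injective T} :=
      ContinuousLinearMap.isOpen_injective
    have e3 : ∀ᶠ q in 𝓝 q₁, Function.Injective ((π ∘L fderiv ℝ f q) ∘L ι : R →L[ℝ] R) := by
      refine e1.preimage_mem_nhds (e2.mem_nhds ?_)
      intro r r' hrr
      have e4 : π (L (ι r)) = π (L (ι r')) := hrr
      rwa [hι, hι, hπ, hπ] at e4
    filter_upwards [e3] with q hq r
    obtain ⟨r', hr'⟩ := (LinearMap.injective_iff_surjective
      (f := ((π ∘L fderiv ℝ f q) ∘L ι).toLinearMap)).1 hq r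
    exact ⟨ι r', hr'⟩
  have hker : ∀ᶠ q in 𝓝 q₁, q ∈ U ∧ ∀ v, π (fderiv ℝ f q v) = 0 → fderiv ℝ f q v = 0 := by
    filter_upwards [hsurj, hU.mem_nhds hq₁] with q hq hqU
    refine ⟨hqU, ?_⟩
    set T : N →ₗ[ℝ] G := (fderiv ℝ f q).toLinearMap with hT
    set πr : LinearMap.range T →ₗ[ℝ] R := π.toLinearMap ∘ₗ (LinearMap.range T).subtype with hπr
    have hs : Function.Surjective πr := by
      intro r
      obtain ⟨v, hv⟩ := hq r
      exact ⟨⟨T v, LinearMap.mem_range_self T v⟩, hv⟩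
    have hle : Module.finrank ℝ (LinearMap.range T) ≤ Module.finrank ℝ R := hmax q hqU
    have hge : Module.finrank ℝ R ≤ Module.finrank ℝ (LinearMap.range T) :=
      LinearMap.finrank_le_finrank_of_surjective hs
    have hi : Function.Injective πr :=
      (LinearMap.injective_iff_surjective_of_finrank_eq_finrank (le_antisymm hle hge)).2 hs
    intro v hv
    have e1 : πr ⟨T v, LinearMap.mem_range_self T v⟩ = πr 0 := by
      rw [map_zero]; exact hv
    exact congrArg Subtype.val (hi e1)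
  have hcc : ∀ τ ∈ O, ContinuousAt c τ := fun τ hτ => (hcd τ hτ).continuousAt
  have hev : ∀ᶠ τ in 𝓝 (0 : ℝ), τ ∈ O ∧ ∀ v, π (fderiv ℝ f (c τ) v) = 0 → fderiv ℝ f (c τ) v = 0 := by
    have e1 : ∀ᶠ τ in 𝓝 (0 : ℝ), c τ ∈ U ∧
        ∀ v, π (fderiv ℝ f (c τ) v) = 0 → fderiv ℝ f (c τ) v = 0 :=
      (hcc 0 h0O).eventually (by rw [hc0]; exact hker)
    filter_upwards [e1, hO.mem_nhds h0O] with τ h1 h2
    exact ⟨h2, h1.2⟩
  obtain ⟨ε, hε, hball⟩ := Metric.eventually_nhds_iff_ball.1 hev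
  refine ⟨q₁, hq₁, c, k, hk0, hc0, ?_, ?_⟩
  · have e1 := hcd 0 h0O
    rwa [hβd0, map_zero, add_zero] at e1
  · filter_upwards [Metric.ball_mem_nhds (0 : ℝ) hε] with τ hτ
    refine ⟨hcU τ (hball τ hτ).1, hcc τ (hball τ hτ).1, ?_⟩
    have e1 : ∀ s ∈ Metric.ball (0 : ℝ) ε, HasDerivAt (fun τ => f (c τ)) 0 s := by
      intro s hs
      obtain ⟨g1, g2⟩ := hball s hs
      have e2 := hfd s g1
      rwa [g2 _ (hpd s g1)] at e2
    have e2 := (convex_ball (0 : ℝ) ε).is_const_of_fderivWithin_eq_zero (𝕜 := ℝ) (f := fun τ => f (c τ))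
      (fun s hs => (e1 s hs).differentiableAt.differentiableWithinAt) (fun s hs => by
        rw [(e1 s hs).hasFDerivAt.hasFDerivWithinAt.fderivWithin
          (Metric.isOpen_ball.uniqueDiffWithinAt hs)]
        ext; simp) hτ (Metric.mem_ball_self hε)
    rw [e2, hc0]

end Pool.Agent.H77.ND
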