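import Pool.Agent.H77.ND.Leaf

/-!
# Long connecting geodesics of residual pairs: finitely many linear maps between directions
-/

set_option autoImplicit false

open scoped InnerProductSpace Topology ContDiff
open Set Filter

namespace Pool.Agent.H77.ND

open Pool.Agent.H91.GE hiding G1 G11 Nondeg Br exists_br cF smooth_cF Cfg mem_TSet_of_map
open Pool.Agent.H59.LV Pool.Agent.H59.ND

variable {E F N : Type*} [NormedAddCommGroup E] [InnerProductSpace ℝ E] [FiniteDimensional ℝ E]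
  [NormedAddCommGroup F] [InnerProductSpace ℝ F] [FiniteDimensional ℝ F]
  [NormedAddCommGroup N] [NormedSpace ℝ N] [FiniteDimensional ℝ N]
  {S : Set E} {A : E × E → E} {K K₂ : NNReal} {Φ : ℝ → E × E → E × E}
  {Ω Ω₁ Ω₂ : Set N} {ψ ψ₁ ψ₂ : N → E} {P P₁ P₂ : E →L[ℝ] N} {W W₁ W₂ : Set E}

/-- The nondegenerate connecting geodesics through `z`. -/
def Thr (Φ : ℝ → E × E → E × E) (Ω₁ Ω₂ : Set N) (ψ₁ ψ₂ : N → E) (x : N × N) (z : E) : Set N :=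
  {w | Cfg Φ Ω₁ Ω₂ ψ₁ ψ₂ x w ∧ w ≠ 0 ∧ ∃ s : ℝ, (0 < s ∧ s < 1) ∧ G1 Φ ψ₁ (x.1, w) s = z}

/-- The conditions which hold at residual pairs. -/
structure Gen (Φ : ℝ → E × E → E × E) (S : Set E) (Ω₁ Ω₂ : Set N) (ψ₁ ψ₂ : N → E) (x : N × N) :
    Prop where
  tri : ∀ y, Tri Φ Ω₁ Ω₂ ψ₁ ψ₂ x y → GoodT Φ ψ₁ ψ₂ x y
  pair : ∀ y, Pair2 Φ Ω₁ Ω₂ ψ₁ ψ₂ x y → GoodP Φ Ω₁ Ω₂ ψ₁ ψ₂ x y
  loop : ¬ Loop S (ψ₁ x.1) (ψ₂ x.2)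
  loop' : ¬ Loop S (ψ₂ x.2) (ψ₁ x.1)
  lead : ∀ u v, Leads Φ S (ψ₁ x.1, u) (ψ₂ x.2, v) → ∀ O : Set (E × E), IsOpen O → (u, v) ∈ O →
    ∀ T : ℝ, x ∈ UO Φ Ω₁ Ω₂ ψ₁ ψ₂ O T

theorem exists_L (hdim : Module.finrank ℝ E = Module.finrank ℝ F + Module.finrank ℝ N)
    (h : GFlow F S A K K₂ Φ) (hp₁ : Patch S Ω₁ ψ₁ P₁ W₁)
    (hc₂ : Patch S Ω₂ ψ₂ P₂ W₂) {x : N × N} (hx : Gen Φ S Ω₁ Ω₂ ψ₁ ψ₂ x) {z : E}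
    (hz : (Thr Φ Ω₁ Ω₂ ψ₁ ψ₂ x z).Nontrivial) :
    ∃ L : N →L[ℝ] N, (∀ b, L b = 0 → b = 0) ∧ ∀ w ∈ Thr Φ Ω₁ Ω₂ ψ₁ ψ₂ x z,
      ∃ c : ℝ, P₂ (deriv (G1 Φ ψ₁ (x.1, w)) 1) = c • L w := by
  obtain ⟨w₀, ⟨c₀, n₀, s₀, t₀, z₀⟩, w₁, ⟨c₁, n₁, s₁, t₁, z₁⟩, hne⟩ := hz
  have hx1 : x.1 ∈ Ω₁ := c₀.1
  have hx2 : x.2 ∈ Ω₂ := c₀.2.1
  have hind : ∀ (w w' : N), Cfg Φ Ω₁ Ω₂ ψ₁ ψ₂ x w → Cfg Φ Ω₁ Ω₂ ψ₁ ψ₂ x w' → w ≠ 0 → w' ≠ 0 →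
      w ≠ w' → ∀ s s' : ℝ, G1 Φ ψ₁ (x.1, w) s = G1 Φ ψ₁ (x.1, w') s' →
      Indep (deriv (G1 Φ ψ₁ (x.1, w)) s) (deriv (G1 Φ ψ₁ (x.1, w')) s') :=
    fun w w' hw hw' h0 h0' hn s s' he =>
      indep_of_ne h hp₁ hx.loop hx.loop' hx1 hw.2.2.1 hw'.2.2.1 h0 h0' hn he
  have hi := hind w₀ w₁ c₀ c₁ n₀ n₁ hne s₀ s₁ (by rw [z₀, z₁])
  obtain ⟨ζ, hζd, hζS, hζz, hlf0, hlf⟩ := exists_lf hdim h hp₁ hc₂ hx.tri c₀ c₁ z₀ z₁ hi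
  have hgeo0 : ∀ w : N, G1 Φ ψ₁ (x.1, w) 0 = ψ₁ x.1 := fun w => (isGeo_G1 h hp₁ hx1 w).2.1
  -- injectivity of the partial derivatives
  have hinj : (∀ b : N, fderiv ℝ ζ x (0, b) = 0 → b = 0) ∧
      (∀ b : N, fderiv ℝ ζ x (b, 0) = 0 → b = 0) := by
    obtain ⟨O₀, V₀, κ₀, θ₀, l₀, hx₀, k₀, th₀⟩ := hlf0
    obtain ⟨O₁, V₁, κ₁, θ₁, l₁, hx₁, k₁, th₁⟩ := hlf w₁ s₁ c₁ z₁ hi
    have hp : Pair2 Φ Ω₁ Ω₂ ψ₁ ψ₂ x ((κ₀ x, κ₁ x), (θ₀ x, θ₁ x)) := by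
      rw [k₀, k₁, th₀, th₁]
      exact ⟨⟨c₀, c₁⟩, by rw [z₀, z₁], ⟨t₀, t₁⟩, ⟨n₀, n₁⟩, hi,
        hind w₀ w₁ c₀ c₁ n₀ n₁ hne 0 0 (by rw [hgeo0, hgeo0]),
        hind w₀ w₁ c₀ c₁ n₀ n₁ hne 1 1 (by rw [c₀.2.2.1, c₁.2.2.1])⟩
    obtain ⟨O, hxO, -, -, hpp⟩ := pp_of_lf h hp₁ l₀ l₁ hx₀ hx₁ hp
    exact hx.pair _ hp O κ₀ κ₁ θ₀ θ₁ ζ hpp hxO rfl
  -- the relations for all geodesics through `z`
  have hall : ∀ w ∈ Thr Φ Ω₁ Ω₂ ψ₁ ψ₂ x z, ∃ e : E,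
      (∃ a : ℝ, fderiv ℝ ζ x (w, 0) = a • e) ∧
      ∃ b : ℝ, fderiv ℝ ζ x (0, P₂ (deriv (G1 Φ ψ₁ (x.1, w)) 1)) = b • e := by
    rintro w ⟨cw, nw, s, tw, zw⟩
    have hl : ∃ (O : Set (N × N)) (V : Set N) (κ : N × N → N) (θ : N × N → ℝ),
        Lf Φ Ω₁ Ω₂ ψ₁ ψ₂ ζ O V κ θ ∧ x ∈ O ∧ κ x = w := by
      rcases eq_or_ne w w₀ with rfl | hw
      · obtain ⟨O, V, κ, θ, l, hxO, k, th⟩ := hlf0
        exact ⟨O, V, κ, θ, l, hxO, k⟩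
      · obtain ⟨O, V, κ, θ, l, hxO, k, th⟩ := hlf w s cw zw
          (hind w₀ w c₀ cw n₀ nw hw.symm s₀ s (by rw [z₀, zw]))
        exact ⟨O, V, κ, θ, l, hxO, k⟩
    obtain ⟨O, V, κ, θ, l, hxO, k⟩ := hl
    obtain ⟨a, ha⟩ := lf_first h hp₁ hc₂ l hxO hζd (1, 0)
    obtain ⟨b, hb⟩ := lf_first h hp₁ hc₂ l hxO hζd (0, 1)
    simp only [one_smul, zero_smul] at ha hb
    rw [k] at ha hb
    exact ⟨deriv (G1 Φ ψ₁ (x.1, w)) (θ x), ⟨a, ha⟩, ⟨b, hb⟩⟩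
  -- the partial derivatives in a chart at `z`
  have hzS : z ∈ S := by rw [← hζz]; exact hζS.self_of_nhds
  obtain ⟨U, hU, f, hf⟩ := h.sub z hzS
  obtain ⟨Ωz, ψz, Pz, Wz, hcz, hzW⟩ := exists_patch (N := N) hdim hf hU
  have htan : ∀ v : N × N, fderiv ℝ ψz (Pz z) (Pz (fderiv ℝ ζ x v)) = fderiv ℝ ζ x v := by
    intro v
    have h1 := mem_TSet_of_map h.sub hζd hζS v
    rw [hζz] at h1
    exact (hcz.of_TSet hzW h1).2.2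
  let Az : N →L[ℝ] N := Pz ∘L ((fderiv ℝ ζ x) ∘L (ContinuousLinearMap.inl ℝ N N))
  let Bz : N →L[ℝ] N := Pz ∘L ((fderiv ℝ ζ x) ∘L (ContinuousLinearMap.inr ℝ N N))
  have hAz : ∀ b, Az b = Pz (fderiv ℝ ζ x (b, 0)) := fun b => rfl
  have hBz : ∀ b, Bz b = Pz (fderiv ℝ ζ x (0, b)) := fun b => rfl
  have hA0 : ∀ b, Az b = 0 → b = 0 := by
    intro b hb
    refine hinj.2 b ?_
    rw [← htan (b, 0), ← hAz, hb, map_zero]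
  have hB0 : ∀ b, Bz b = 0 → b = 0 := by
    intro b hb
    refine hinj.1 b ?_
    rw [← htan (0, b), ← hBz, hb, map_zero]
  have hBi : Function.Injective Bz.toLinearMap := (injective_iff_map_eq_zero _).2 hB0
  have hBb : Function.Bijective Bz.toLinearMap := ⟨hBi, LinearMap.injective_iff_surjective.1 hBi⟩
  let Be : N ≃ₗ[ℝ] N := LinearEquiv.ofBijective Bz.toLinearMap hBb
  let Bi : N →L[ℝ] N := LinearMap.toContinuousLinearMap Be.symm.toLinearMap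
  have hBiB : ∀ b, Bi (Bz b) = b := fun b => Be.symm_apply_apply b
  have hBBi : ∀ b, Bz (Bi b) = b := fun b => Be.apply_symm_apply b
  refine ⟨Bi ∘L Az, fun b hb => hA0 b ?_, fun w hw => ?_⟩
  · have h1 : Bi (Az b) = 0 := hb
    rw [← hBBi (Az b), h1, map_zero]
  · obtain ⟨e, ⟨a, ha⟩, b, hb⟩ := hall w hw
    have ha0 : a ≠ 0 := by
      intro h0
      rw [h0, zero_smul] at ha
      exact hw.2.1 (hinj.2 w ha)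
    refine ⟨b * a⁻¹, ?_⟩
    have h1 : Bz (P₂ (deriv (G1 Φ ψ₁ (x.1, w)) 1)) = (b * a⁻¹) • Az w := by
      rw [hBz, hAz, ha, hb, map_smul, map_smul, smul_smul, mul_assoc, inv_mul_cancel₀ ha0, mul_one]
    rw [← hBiB (P₂ (deriv (G1 Φ ψ₁ (x.1, w)) 1)), h1, map_smul]
    rfl

/-- The conclusion for one pair of points. -/
def Concl (Φ : ℝ → E × E → E × E) (S : Set E) (X Y : E) : Prop :=
  ∃ 𝓛 : Set (E →L[ℝ] E), 𝓛.Finite ∧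
    (∀ l ∈ 𝓛, ∀ u, (X, u) ∈ TSet S → (Y, l u) ∈ TSet S ∧ (l u = 0 → u = 0)) ∧
    ∀ u v, Leads Φ S (X, u) (Y, v) → ∃ l ∈ 𝓛, ∃ c : ℝ, v = c • l u

theorem concl_of_gen (hdim : Module.finrank ℝ E = Module.finrank ℝ F + Module.finrank ℝ N)
    (h : GFlow F S A K K₂ Φ) (hsec : Secure S) (hp₁ : Patch S Ω₁ ψ₁ P₁ W₁)
    (hc₂ : Patch S Ω₂ ψ₂ P₂ W₂) {x : N × N} (hx1 : x.1 ∈ Ω₁) (hx2 : x.2 ∈ Ω₂)
    (hx : Gen Φ S Ω₁ Ω₂ ψ₁ ψ₂ x) : Concl Φ S (ψ₁ x.1) (ψ₂ x.2) := by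
  obtain ⟨B, hBS, -, -, hB⟩ := hsec (ψ₁ x.1) (hp₁.mem _ hx1) (ψ₂ x.2) (hc₂.mem _ hx2)
  have hex : ∀ z : E, ∃ L : N →L[ℝ] N, (Thr Φ Ω₁ Ω₂ ψ₁ ψ₂ x z).Nontrivial →
      (∀ b, L b = 0 → b = 0) ∧ ∀ w ∈ Thr Φ Ω₁ Ω₂ ψ₁ ψ₂ x z,
      ∃ c : ℝ, P₂ (deriv (G1 Φ ψ₁ (x.1, w)) 1) = c • L w := by
    intro z
    by_cases hz : (Thr Φ Ω₁ Ω₂ ψ₁ ψ₂ x z).Nontrivial
    · obtain ⟨L, hL⟩ := exists_L hdim h hp₁ hc₂ hx hz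
      exact ⟨L, fun _ => hL⟩
    · exact ⟨0, fun hh => absurd hh hz⟩
  choose L hL using hex
  let l : E → (E →L[ℝ] E) := fun z => (fderiv ℝ ψ₂ x.2) ∘L ((L z) ∘L P₁)
  have hl : ∀ z u, l z u = fderiv ℝ ψ₂ x.2 (L z (P₁ u)) := fun z u => rfl
  have hlinj : ∀ z, (Thr Φ Ω₁ Ω₂ ψ₁ ψ₂ x z).Nontrivial → ∀ u, (ψ₁ x.1, u) ∈ TSet S →
      l z u = 0 → u = 0 := by
    intro z hz u hu hlu
    have h1 : L z (P₁ u) = 0 := inj_fderiv hc₂ hx2 (by rw [map_zero]; exact hlu)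
    have h2 := (hL z hz).1 _ h1
    have h3 := (hp₁.of_TSet (hp₁.maps _ hx1) hu).2.2
    rw [h2, map_zero] at h3
    exact h3.symm
  set Z : Set E := {z | z ∈ B ∧ (Thr Φ Ω₁ Ω₂ ψ₁ ψ₂ x z).Nontrivial} with hZ
  have hZf : Z.Finite := B.finite_toSet.subset fun z hz => hz.1
  refine ⟨l '' Z, hZf.image l, ?_, ?_⟩
  · rintro _ ⟨z, hz, rfl⟩ u hu
    exact ⟨hc₂.mem_TSet h.sub hx2 _, hlinj z hz.2 u hu⟩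
  intro u v huv
  -- the finitely many exceptional geodesics
  have hfin : (⋃ z ∈ (B : Set E) \ Z, Thr Φ Ω₁ Ω₂ ψ₁ ψ₂ x z).Finite := by
    refine Set.Finite.biUnion (B.finite_toSet.subset sdiff_subset) fun z hz => ?_
    have h1 : ¬ (Thr Φ Ω₁ Ω₂ ψ₁ ψ₂ x z).Nontrivial := fun hh => hz.2 ⟨hz.1, hh⟩
    exact (not_nontrivial_iff.1 h1).finite
  obtain ⟨M, hM⟩ := (hfin.image fun w => ‖fderiv ℝ ψ₁ x.1 w‖).bddAbove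
  -- approximating geodesics
  have happ : ∀ n : ℕ, ∃ w, Cfg Φ Ω₁ Ω₂ ψ₁ ψ₂ x w ∧ w ≠ 0 ∧ M < ‖fderiv ℝ ψ₁ x.1 w‖ ∧
      (‖fderiv ℝ ψ₁ x.1 w‖⁻¹ • fderiv ℝ ψ₁ x.1 w,
        ‖fderiv ℝ ψ₁ x.1 w‖⁻¹ • deriv (G1 Φ ψ₁ (x.1, w)) 1) ∈
        Metric.ball (u, v) (1 / ((n : ℝ) + 1)) := fun n =>
    hx.lead u v huv _ Metric.isOpen_ball (Metric.mem_ball_self (by positivity)) M
  choose w hcfg hw0 hwM hwd using happ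
  have hlim : Tendsto (fun n => ((‖fderiv ℝ ψ₁ x.1 (w n)‖⁻¹ • fderiv ℝ ψ₁ x.1 (w n),
      ‖fderiv ℝ ψ₁ x.1 (w n)‖⁻¹ • deriv (G1 Φ ψ₁ (x.1, w n)) 1) : E × E)) atTop (𝓝 (u, v)) := by
    rw [tendsto_iff_dist_tendsto_zero]
    exact squeeze_zero (fun n => dist_nonneg) (fun n => (Metric.mem_ball.1 (hwd n)).le)
      tendsto_one_div_add_atTop_nhds_zero_nat
  have hlim1 := (continuous_fst.tendsto (u, v)).comp hlim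
  have hlim2 := (continuous_snd.tendsto (u, v)).comp hlim
  have hr : ∀ n, 0 < ‖fderiv ℝ ψ₁ x.1 (w n)‖ := fun n =>
    norm_pos_iff.2 (fderiv_ne_zero hp₁ hx1 (hw0 n))
  -- blocking points
  have hblock : ∀ n, ∃ z ∈ Z, w n ∈ Thr Φ Ω₁ Ω₂ ψ₁ ψ₂ x z := by
    intro n
    obtain ⟨g1, g2, g3⟩ := isGeo_G1 h hp₁ hx1 (w n)
    obtain ⟨t, ht, htB⟩ := hB _ g1 g2 (hcfg n).2.2.1 (by
      rw [g3]; exact fderiv_ne_zero hp₁ hx1 (hw0 n))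
    have hthr : w n ∈ Thr Φ Ω₁ Ω₂ ψ₁ ψ₂ x (G1 Φ ψ₁ (x.1, w n) t) :=
      ⟨hcfg n, hw0 n, t, ⟨ht.1, ht.2⟩, rfl⟩
    refine ⟨_, ?_, hthr⟩
    by_contra hz
    have h1 : w n ∈ ⋃ z ∈ (B : Set E) \ Z, Thr Φ Ω₁ Ω₂ ψ₁ ψ₂ x z :=
      mem_biUnion (show G1 Φ ψ₁ (x.1, w n) t ∈ (B : Set E) \ Z from ⟨htB, hz⟩) hthr
    exact absurd (hM (mem_image_of_mem _ h1)) (not_le.2 (hwM n))
  choose z hzZ hzT using hblock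
  obtain ⟨z₀, hz₀, hfreq⟩ : ∃ z₀ ∈ Z, ∃ᶠ n in atTop, z n = z₀ := by
    by_contra hcon
    push Not at hcon
    have h1 : ∀ᶠ n in atTop, ∀ z₀ ∈ Z, z n ≠ z₀ :=
      (eventually_all_finite hZf).2 fun z₀ hz₀ => hcon z₀ hz₀
    obtain ⟨n, hn⟩ := h1.exists
    exact hn (z n) (hzZ n) rfl
  refine ⟨l z₀, mem_image_of_mem l hz₀, ?_⟩
  -- the relation is closed
  have hclosed : IsClosed {y : E × E | ‖l z₀ y.1‖ ^ 2 • y.2 = ⟪y.2, l z₀ y.1⟫_ℝ • l z₀ y.1} := by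
    have c1 : Continuous fun y : E × E => l z₀ y.1 := (l z₀).continuous.comp continuous_fst
    exact isClosed_eq ((c1.norm.pow 2).smul continuous_snd) ((continuous_snd.inner c1).smul c1)
  have hrel : ‖l z₀ u‖ ^ 2 • v = ⟪v, l z₀ u⟫_ℝ • l z₀ u := by
    have h1 : ((u, v) : E × E) ∈ {y : E × E | ‖l z₀ y.1‖ ^ 2 • y.2
        = ⟪y.2, l z₀ y.1⟫_ℝ • l z₀ y.1} := by
      refine hclosed.mem_of_frequently_of_tendsto (hfreq.mono fun n hn => ?_) hlim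
      have hT := hzT n
      rw [hn] at hT
      obtain ⟨c, hc⟩ := (hL z₀ hz₀.2).2 (w n) hT
      set r := ‖fderiv ℝ ψ₁ x.1 (w n)‖ with hrd
      have h2 : l z₀ (r⁻¹ • fderiv ℝ ψ₁ x.1 (w n)) = r⁻¹ • fderiv ℝ ψ₂ x.2 (L z₀ (w n)) := by
        rw [hl, map_smul, map_smul, map_smul, hp₁.κ_fderiv hx1]
      have h3 : deriv (G1 Φ ψ₁ (x.1, w n)) 1 = c • fderiv ℝ ψ₂ x.2 (L z₀ (w n)) := by
        have h4 : (ψ₂ x.2, deriv (G1 Φ ψ₁ (x.1, w n)) 1) ∈ TSet S := by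
          have h5 := (isGeo_G1 h hp₁ hx1 (w n)).1.mem_TSet 1
          rw [(hcfg n).2.2.1] at h5
          exact h5
        have h6 := (hc₂.of_TSet (hc₂.maps _ hx2) h4).2.2
        rw [hc₂.left _ hx2, hc, map_smul] at h6
        exact h6.symm
      have h4 : r⁻¹ • deriv (G1 Φ ψ₁ (x.1, w n)) 1 = c • l z₀ (r⁻¹ • fderiv ℝ ψ₁ x.1 (w n)) := by
        rw [h3, h2, smul_comm]
      show ‖l z₀ (r⁻¹ • fderiv ℝ ψ₁ x.1 (w n))‖ ^ 2 • (r⁻¹ • deriv (G1 Φ ψ₁ (x.1, w n)) 1)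
        = ⟪r⁻¹ • deriv (G1 Φ ψ₁ (x.1, w n)) 1, l z₀ (r⁻¹ • fderiv ℝ ψ₁ x.1 (w n))⟫_ℝ •
          l z₀ (r⁻¹ • fderiv ℝ ψ₁ x.1 (w n))
      rw [h4, real_inner_smul_left, real_inner_self_eq_norm_sq, smul_smul, mul_comm]
    exact h1
  -- `u` is a unit tangent vector
  have huT : (ψ₁ x.1, u) ∈ TSet S := by
    have h1 : Tendsto (fun n => ((ψ₁ x.1, ‖fderiv ℝ ψ₁ x.1 (w n)‖⁻¹ • fderiv ℝ ψ₁ x.1 (w n)) :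
        E × E)) atTop (𝓝 (ψ₁ x.1, u)) := tendsto_const_nhds.prodMk_nhds hlim1
    exact (isClosed_TSet h.compact h.sub).mem_of_tendsto h1 (Eventually.of_forall fun n =>
      scale_TSet (hp₁.mem_TSet h.sub hx1 _) h.sub _)
  have hu1 : ‖u‖ = 1 := by
    have h1 := hlim1.norm
    refine tendsto_nhds_unique h1 ((tendsto_const_nhds (x := (1 : ℝ))).congr fun n => ?_)
    show (1 : ℝ) = ‖‖fderiv ℝ ψ₁ x.1 (w n)‖⁻¹ • fderiv ℝ ψ₁ x.1 (w n)‖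
    rw [norm_smul, norm_inv, norm_norm, inv_mul_cancel₀ (hr n).ne']
  have hlu : l z₀ u ≠ 0 := by
    intro h0
    have h1 := hlinj z₀ hz₀.2 u huT h0
    rw [h1, norm_zero] at hu1
    exact zero_ne_one hu1
  have hn : ‖l z₀ u‖ ^ 2 ≠ 0 := pow_ne_zero 2 (norm_ne_zero_iff.2 hlu)
  refine ⟨(‖l z₀ u‖ ^ 2)⁻¹ * ⟪v, l z₀ u⟫_ℝ, ?_⟩
  rw [mul_smul, ← hrel, smul_smul, inv_mul_cancel₀ hn, one_smul]

theorem chart_form (hdim : Module.finrank ℝ E = Module.finrank ℝ F + Module.finrank ℝ N)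
    (hN : 1 < Module.finrank ℝ N)
    (h : GFlow F S A K K₂ Φ) (hsec : Secure S) (hp₁ : Patch S Ω₁ ψ₁ P₁ W₁)
    (hc₂ : Patch S Ω₂ ψ₂ P₂ W₂) :
    IsMeagre {x : N × N | x.1 ∈ Ω₁ ∧ x.2 ∈ Ω₂ ∧ ¬ Concl Φ S (ψ₁ x.1) (ψ₂ x.2)} := by
  have m1 := tri_meagre hdim h hp₁ hc₂
  have m2 := pair_meagre hdim h hsec hp₁ hc₂
  have m3 := Pool.Agent.H59.ND.loop_meagre hN h hsec hp₁ hc₂
  have m4 := Pool.Agent.H59.ND.loop_meagre' hN h hsec hp₁ hc₂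
  have m5 := lead_residual hdim h hp₁ hc₂
  refine (m1.union (m2.union (m3.union (m4.union m5)))).mono ?_
  rintro x ⟨hx1, hx2, hbad⟩
  by_contra hcon
  simp only [mem_union, mem_ofPred_eq, not_or] at hcon
  obtain ⟨h1, h2, h3, h4, h5⟩ := hcon
  refine hbad (concl_of_gen hdim h hsec hp₁ hc₂ hx1 hx2 ⟨fun y hy => ?_, fun y hy => ?_, fun hl =>
    h3 ⟨hx1, hx2, hl⟩, fun hl => h4 ⟨hx1, hx2, hl⟩, fun u v huv O hO hO' T => ?_⟩)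
  · by_contra hc; exact h1 ⟨y, hy, hc⟩
  · by_contra hc; exact h2 ⟨y, hy, hc⟩
  · by_contra hc
    exact h5 ⟨hx1, hx2, u, v, huv, O, hO, hO', T, hc⟩

end Pool.Agent.H77.ND
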