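import Pool.Agent.H77.ND.Prelim

/-!
# Crossings of two branches of connecting geodesics
-/

set_option autoImplicit false

open scoped InnerProductSpace Topology ContDiff
open Set Filter

namespace Pool.Agent.H77.ND

open Pool.Agent.H91.GE hiding G1 G11 Nondeg Br exists_br cF smooth_cF Cfg mem_TSet_of_map
open Pool.Agent.H59.LV Pool.Agent.H59.ND

variable {E F N : Type*} [NormedAddCommGroup E] [InnerProductSpace ℝ E] [FiniteDimensional ℝ E]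
  [NormedAddCommGroup F] [InnerProductSpace ℝ F] [FiniteDimensional ℝ F]
  [NormedAddCommGroup N] [NormedSpace ℝ N] [FiniteDimensional ℝ N]
  {S : Set E} {A : E × E → E} {K K₂ : NNReal} {Φ : ℝ → E × E → E × E}
  {Ω Ω₁ Ω₂ : Set N} {ψ ψ₁ ψ₂ : N → E} {P P₁ P₂ : E →L[ℝ] N} {W W₁ W₂ : Set E}

/-- A smooth family of pairs of times which contains all the crossings of two families. -/
structure Cr (c₁ c₂ : N × N → ℝ → E) (O : Set (N × N)) (V : Set (ℝ × ℝ)) (σ : N × N → ℝ × ℝ) :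
    Prop where
  isOpen : IsOpen O
  V_open : IsOpen V
  smooth : ContDiffOn ℝ ∞ σ O
  uniq : ∀ x ∈ O, ∀ s ∈ V, c₁ x s.1 = c₂ x s.2 → s = σ x

theorem exists_cr (hdim : Module.finrank ℝ E = Module.finrank ℝ F + Module.finrank ℝ N)
    (h : GFlow F S A K K₂ Φ)
    (hp₁ : Patch S Ω₁ ψ₁ P₁ W₁) {O : Set (N × N)} (hO : IsOpen O) {κ₁ κ₂ : N × N → N}
    (hκ₁ : ContDiffOn ℝ ∞ κ₁ O) (hκ₂ : ContDiffOn ℝ ∞ κ₂ O) (hm : ∀ x ∈ O, x.1 ∈ Ω₁) {x₀ : N × N}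
    (hx₀ : x₀ ∈ O) {s₀ : ℝ × ℝ} (heq : cF Φ ψ₁ κ₁ x₀ s₀.1 = cF Φ ψ₁ κ₂ x₀ s₀.2)
    (hind : Indep (deriv (cF Φ ψ₁ κ₁ x₀) s₀.1) (deriv (cF Φ ψ₁ κ₂ x₀) s₀.2)) :
    ∃ (O' : Set (N × N)) (V : Set (ℝ × ℝ)) (σ : N × N → ℝ × ℝ), O' ⊆ O ∧
      Cr (cF Φ ψ₁ κ₁) (cF Φ ψ₁ κ₂) O' V σ ∧ x₀ ∈ O' ∧ s₀ ∈ V ∧ σ x₀ = s₀ := by
  set z := cF Φ ψ₁ κ₁ x₀ s₀.1 with hz
  have hmemS : ∀ (κ : N × N → N), ∀ x ∈ O, ∀ t, cF Φ ψ₁ κ x t ∈ S := fun κ x hx t =>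
    mem_G1 h hp₁ (hm x hx) _ t
  have hzS : z ∈ S := hmemS κ₁ x₀ hx₀ _
  obtain ⟨U, hU, f, hf⟩ := h.sub z hzS
  obtain ⟨Ωz, ψz, Pz, Wz, hcz, hzW⟩ := exists_patch (N := N) hdim hf hU
  have s1 := (smooth_cF h hp₁ hO hκ₁ hm).1
  have s2 := (smooth_cF h hp₁ hO hκ₂ hm).1
  set D₀ : Set ((N × N) × (ℝ × ℝ)) := O ×ˢ univ with hD₀
  have hD₀o : IsOpen D₀ := hO.prod isOpen_univ
  let f₁ : (N × N) × (ℝ × ℝ) → E := fun y => cF Φ ψ₁ κ₁ y.1 y.2.1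
  let f₂ : (N × N) × (ℝ × ℝ) → E := fun y => cF Φ ψ₁ κ₂ y.1 y.2.2
  have hf₁ : ContDiffOn ℝ ∞ f₁ D₀ :=
    s1.comp ((contDiff_fst.prodMk contDiff_snd.fst).contDiffOn) fun y hy => ⟨hy.1, mem_univ _⟩
  have hf₂ : ContDiffOn ℝ ∞ f₂ D₀ :=
    s2.comp ((contDiff_fst.prodMk contDiff_snd.snd).contDiffOn) fun y hy => ⟨hy.1, mem_univ _⟩
  have hgeo₁ : IsGeo S (cF Φ ψ₁ κ₁ x₀) := (isGeo_G1 h hp₁ (hm x₀ hx₀) _).1
  have hgeo₂ : IsGeo S (cF Φ ψ₁ κ₂ x₀) := (isGeo_G1 h hp₁ (hm x₀ hx₀) _).1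
  -- the difference of the two families in a chart
  let g : (N × N) × (ℝ × ℝ) → N := fun y => Pz (f₁ y) - Pz (f₂ y)
  have hg : ContDiffOn ℝ ∞ g D₀ :=
    (Pz.contDiff.comp_contDiffOn hf₁).sub (Pz.contDiff.comp_contDiffOn hf₂)
  have hmem₀ : (x₀, s₀) ∈ D₀ := ⟨hx₀, mem_univ _⟩
  have hg0 : g (x₀, s₀) = 0 := by
    show Pz (cF Φ ψ₁ κ₁ x₀ s₀.1) - Pz (cF Φ ψ₁ κ₂ x₀ s₀.2) = 0
    rw [← heq, sub_self]
  -- derivative in the times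
  have hder : ∀ b : ℝ × ℝ, fderiv ℝ g (x₀, s₀) (0, b)
      = Pz (b.1 • deriv (cF Φ ψ₁ κ₁ x₀) s₀.1 - b.2 • deriv (cF Φ ψ₁ κ₂ x₀) s₀.2) := by
    intro b
    have h1 : HasFDerivAt g (fderiv ℝ g (x₀, s₀)) (x₀, s₀) := hasFDerivAt_of_open hD₀o hg hmem₀
    have h2 : HasDerivAt (fun t : ℝ => ((x₀, s₀ + t • b) : (N × N) × (ℝ × ℝ))) (0, b) 0 := by
      have h3 : HasDerivAt (fun t : ℝ => s₀ + t • b) b 0 := by
        simpa using ((hasDerivAt_id (0 : ℝ)).smul_const b).const_add s₀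
      exact (hasDerivAt_const (0 : ℝ) x₀).prodMk h3
    have h4 : HasDerivAt (fun t : ℝ => g (x₀, s₀ + t • b)) (fderiv ℝ g (x₀, s₀) (0, b)) 0 := by
      have h5 : HasFDerivAt g (fderiv ℝ g (x₀, s₀)) (x₀, s₀ + (0 : ℝ) • b) := by
        rw [zero_smul, add_zero]; exact h1
      exact h5.comp_hasDerivAt (0 : ℝ) h2
    have h6 : ∀ (c : ℝ → E) (s b : ℝ), IsGeo S c → HasDerivAt (fun t => c (s + t * b))
        (b • deriv c s) 0 := by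
      intro c s b hc
      have h7 : HasDerivAt (fun t : ℝ => s + t * b) b 0 := by
        simpa using ((hasDerivAt_id (0 : ℝ)).mul_const b).const_add s
      have h8 : HasDerivAt c (deriv c s) (s + 0 * b) := by
        rw [zero_mul, add_zero]; exact hc.hasDerivAt s
      exact HasDerivAt.scomp (0 : ℝ) h8 h7
    have h9 : HasDerivAt (fun t : ℝ => g (x₀, s₀ + t • b))
        (Pz (b.1 • deriv (cF Φ ψ₁ κ₁ x₀) s₀.1) - Pz (b.2 • deriv (cF Φ ψ₁ κ₂ x₀) s₀.2)) 0 :=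
      (Pz.hasFDerivAt.comp_hasDerivAt (0 : ℝ) (h6 _ s₀.1 b.1 hgeo₁)).sub
        (Pz.hasFDerivAt.comp_hasDerivAt (0 : ℝ) (h6 _ s₀.2 b.2 hgeo₂))
    rw [h4.unique h9, map_sub]
  let Lg : ℝ × ℝ →L[ℝ] N :=
    (fderiv ℝ g (x₀, s₀)) ∘L (ContinuousLinearMap.inr ℝ (N × N) (ℝ × ℝ))
  have hinj : ∀ b : ℝ × ℝ, Lg b = 0 → b = 0 := by
    intro b hbb
    have h1 : fderiv ℝ g (x₀, s₀) (0, b) = 0 := hbb
    rw [hder] at h1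
    have t1 : (z, b.1 • deriv (cF Φ ψ₁ κ₁ x₀) s₀.1) ∈ TSet S :=
      scale_TSet (hgeo₁.mem_TSet s₀.1) h.sub _
    have t2 : (z, b.2 • deriv (cF Φ ψ₁ κ₂ x₀) s₀.2) ∈ TSet S := by
      have := scale_TSet (hgeo₂.mem_TSet s₀.2) h.sub b.2
      rw [← heq] at this
      exact this
    have h3 := (hcz.of_TSet hzW t1).2.2
    have h4 := (hcz.of_TSet hzW t2).2.2
    rw [map_sub, sub_eq_zero] at h1
    rw [h1, h4] at h3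
    obtain ⟨h5, h6⟩ := hind _ _ h3.symm
    exact Prod.ext h5 h6
  have hker : LinearMap.ker Lg.toLinearMap = ⊥ :=
    (LinearMap.ker_eq_bot').2 hinj
  obtain ⟨Q₀, hQ₀⟩ := Lg.toLinearMap.exists_leftInverse_of_injective hker
  let Q : N →L[ℝ] ℝ × ℝ := LinearMap.toContinuousLinearMap Q₀
  have hQ : ∀ b : ℝ × ℝ, Q (fderiv ℝ g (x₀, s₀) (0, b)) = b := fun b =>
    congrArg (fun L : ℝ × ℝ →ₗ[ℝ] ℝ × ℝ => L b) hQ₀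
  let Fn : (N × N) × (ℝ × ℝ) → ℝ × ℝ := fun y => Q (g y)
  have hF : ContDiffOn ℝ ∞ Fn D₀ := Q.contDiff.comp_contDiffOn hg
  have hF0 : Fn (x₀, s₀) = 0 := by
    show Q (g (x₀, s₀)) = 0
    rw [hg0, map_zero]
  have hdF : ∀ b : ℝ × ℝ, fderiv ℝ Fn (x₀, s₀) (0, b) = b := by
    intro b
    have h1 : HasFDerivAt Fn (Q ∘L fderiv ℝ g (x₀, s₀)) (x₀, s₀) :=
      Q.hasFDerivAt.comp (x₀, s₀) (hasFDerivAt_of_open hD₀o hg hmem₀)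
    rw [h1.fderiv]
    exact hQ b
  have hbij : Function.Bijective fun b : ℝ × ℝ => fderiv ℝ Fn (x₀, s₀) (0, b) := by
    have h1 : (fun b : ℝ × ℝ => fderiv ℝ Fn (x₀, s₀) (0, b)) = id := funext hdF
    rw [h1]; exact Function.bijective_id
  obtain ⟨O', V, β, hO', hxO, hV, hwV, hOV, hβ, hβ0, hβ1⟩ := exists_implicit hD₀o hF hmem₀ hbij
  rw [hF0] at hβ1
  have hsubO : O' ⊆ O := fun x hx => (hOV (⟨hx, hwV⟩ : (x, s₀) ∈ O' ×ˢ V)).1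
  refine ⟨O', V, β, hsubO, ⟨hO', hV, hβ, fun x hx s hs hs1 => ?_⟩, hxO, hwV, hβ0⟩
  obtain ⟨-, -, g2⟩ := hβ1 x hx
  refine g2 s hs ?_
  show Q (Pz (cF Φ ψ₁ κ₁ x s.1) - Pz (cF Φ ψ₁ κ₂ x s.2)) = 0
  rw [hs1, sub_self, map_zero]

omit [InnerProductSpace ℝ E] [FiniteDimensional ℝ E] [FiniteDimensional ℝ N] in
theorem Cr.mono [NormedSpace ℝ E] {c₁ c₂ : N × N → ℝ → E} {O O' : Set (N × N)} {V : Set (ℝ × ℝ)}
    {σ : N × N → ℝ × ℝ} (h : Cr c₁ c₂ O V σ) (hO' : IsOpen O') (hs : O' ⊆ O) :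
    Cr c₁ c₂ O' V σ :=
  ⟨hO', h.V_open, h.smooth.mono hs, fun x hx => h.uniq x (hs hx)⟩

end Pool.Agent.H77.ND
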