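import Pool.Agent.H77.ND.Tri
import Pool.Agent.H77.ND.Fiber

/-!
# The crossing point moves with each end point
-/

set_option autoImplicit false

open scoped InnerProductSpace Topology ContDiff
open Set Filter

namespace Pool.Agent.H77.ND

open Pool.Agent.H91.GE hiding G1 G11 Nondeg Br exists_br cF smooth_cF Cfg mem_TSet_of_map
open Pool.Agent.H59.LV Pool.Agent.H59.ND

variable {E F N : Type*} [NormedAddCommGroup E] [InnerProductSpace ℝ E] [FiniteDimensional ℝ E]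
  [NormedAddCommGroup F] [InnerProductSpace ℝ F] [FiniteDimensional ℝ F]
  [NormedAddCommGroup N] [NormedSpace ℝ N] [FiniteDimensional ℝ N]
  {S : Set E} {A : E × E → E} {K K₂ : NNReal} {Φ : ℝ → E × E → E × E}
  {Ω Ω₁ Ω₂ : Set N} {ψ ψ₁ ψ₂ : N → E} {P P₁ P₂ : E →L[ℝ] N} {W W₁ W₂ : Set E}

/-- A continuous family of geodesics from `X` through `Z` has a constant direction. -/
theorem stay (h : GFlow F S A K K₂ Φ) (hsec : Secure S) {X Z : E} (hX : X ∈ S) (hZ : Z ∈ S)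
    {u : ℝ → E} (hu : DifferentiableAt ℝ u 0)
    (huT : ∀ᶠ τ in 𝓝 (0 : ℝ), (X, u τ) ∈ TSet S) (hu0 : u 0 ≠ 0) {θ : ℝ → ℝ}
    (hθ : ContinuousAt θ 0) (hθ0 : θ 0 ≠ 0)
    (hZ' : ∀ᶠ τ in 𝓝 (0 : ℝ), Geo Φ X (u τ) (θ τ) = Z) :
    ∃ l : ℝ → ℝ, DifferentiableAt ℝ l 0 ∧ l 0 = 1 ∧ ∀ᶠ τ in 𝓝 (0 : ℝ), u τ = l τ • u 0 := by
  have hun : 0 < ‖u 0‖ := norm_pos_iff.2 hu0
  have hfin := fin_dir h hsec hX hZ (|‖u 0‖ * θ 0| + 1)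
  set V : Set E := {v : E | (X, v) ∈ TSet S ∧ ‖v‖ = 1 ∧
    ∃ t, 0 < |t| ∧ |t| ≤ |‖u 0‖ * θ 0| + 1 ∧ (Φ t (X, v)).1 = Z} with hV
  let d : ℝ → E := fun τ => ‖u τ‖⁻¹ • u τ
  have hdc : ContinuousAt d 0 := (hu.continuousAt.norm.inv₀ hun.ne').smul hu.continuousAt
  have hev1 : ∀ᶠ τ in 𝓝 (0 : ℝ), u τ ≠ 0 := hu.continuousAt.eventually_ne hu0
  have hev2 : ∀ᶠ τ in 𝓝 (0 : ℝ), θ τ ≠ 0 := hθ.eventually_ne hθ0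
  have hev3 : ∀ᶠ τ in 𝓝 (0 : ℝ), |‖u τ‖ * θ τ| < |‖u 0‖ * θ 0| + 1 := by
    refine ((hu.continuousAt.norm.mul hθ).abs).eventually_lt_const ?_
    show |‖u 0‖ * θ 0| < |‖u 0‖ * θ 0| + 1
    linarith
  have hdV : ∀ᶠ τ in 𝓝 (0 : ℝ), d τ ∈ V := by
    filter_upwards [hev1, hev2, hev3, huT, hZ'] with τ h1 h2 h3 h4 h5
    have hn : 0 < ‖u τ‖ := norm_pos_iff.2 h1
    refine ⟨scale_TSet h4 h.sub _, ?_, ‖u τ‖ * θ τ, ?_, h3.le, ?_⟩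
    · show ‖‖u τ‖⁻¹ • u τ‖ = 1
      rw [norm_smul, norm_inv, norm_norm, inv_mul_cancel₀ hn.ne']
    · exact abs_pos.2 (mul_ne_zero hn.ne' h2)
    · rw [← h5]
      exact ((h.Geo_eq h4 hn (by linarith) (θ τ)).1).symm
  have hclosed : IsClosed (V \ {d 0}) := (hfin.subset sdiff_subset).isClosed
  have hev4 : ∀ᶠ τ in 𝓝 (0 : ℝ), d τ ∈ (V \ {d 0})ᶜ :=
    hdc.preimage_mem_nhds (hclosed.isOpen_compl.mem_nhds fun hh => hh.2 rfl)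
  refine ⟨fun τ => ‖u τ‖ / ‖u 0‖, (hu.norm ℝ hu0).div_const _, div_self hun.ne', ?_⟩
  filter_upwards [hdV, hev4, hev1] with τ h1 h2 h3
  have hn : 0 < ‖u τ‖ := norm_pos_iff.2 h3
  have h4 : d τ = d 0 := by
    by_contra hne
    exact h2 ⟨h1, hne⟩
  have h5 : u τ = ‖u τ‖ • d τ := by
    show u τ = ‖u τ‖ • (‖u τ‖⁻¹ • u τ)
    rw [smul_smul, mul_inv_cancel₀ hn.ne', one_smul]
  rw [h5, h4]
  show ‖u τ‖ • (‖u 0‖⁻¹ • u 0) = (‖(‖u τ‖ • (‖u 0‖⁻¹ • u 0))‖ / ‖u 0‖) • u 0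
  rw [norm_smul, norm_norm, norm_smul, norm_inv, norm_norm, inv_mul_cancel₀ hun.ne', mul_one,
    smul_smul, div_eq_mul_inv]

theorem stay_end (h : GFlow F S A K K₂ Φ) (hsec : Secure S) {X Z : E} (hX : X ∈ S) (hZ : Z ∈ S)
    {u : ℝ → E} (hu : DifferentiableAt ℝ u 0)
    (huT : ∀ᶠ τ in 𝓝 (0 : ℝ), (X, u τ) ∈ TSet S) (hu0 : u 0 ≠ 0) {θ : ℝ → ℝ}
    (hθ : ContinuousAt θ 0) (hθ0 : θ 0 ≠ 0)
    (hZ' : ∀ᶠ τ in 𝓝 (0 : ℝ), Geo Φ X (u τ) (θ τ) = Z) {e : ℝ → E} {e' : E}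
    (he : HasDerivAt e e' 0) (hee : ∀ᶠ τ in 𝓝 (0 : ℝ), Geo Φ X (u τ) 1 = e τ) :
    ∃ a : ℝ, e' = a • deriv (Geo Φ X (u 0)) 1 := by
  obtain ⟨l, hl, hl0, hlu⟩ := stay h hsec hX hZ hu huT hu0 hθ hθ0 hZ'
  have hT0 : (X, u 0) ∈ TSet S := huT.self_of_nhds
  obtain ⟨g1, -, -⟩ := h.isGeo_Geo hT0
  have h1 : HasDerivAt (fun τ => Geo Φ X (u 0) (l τ)) (deriv l 0 • deriv (Geo Φ X (u 0)) 1) 0 :=
    HasDerivAt.scomp (g₁ := Geo Φ X (u 0)) (h := l) (0 : ℝ)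
      (by rw [hl0]; exact g1.hasDerivAt 1) hl.hasDerivAt
  have h2 : e =ᶠ[𝓝 0] fun τ => Geo Φ X (u 0) (l τ) := by
    filter_upwards [hlu, hee] with τ h3 h4
    rw [← h4, h3, h.Geo_smul hT0, mul_one]
  exact ⟨deriv l 0, he.unique (h1.congr_of_eventuallyEq h2)⟩

/-- Two families of connecting geodesics which meet at `ζ`. -/
structure PP (Φ : ℝ → E × E → E × E) (Ω₁ Ω₂ : Set N) (ψ₁ ψ₂ : N → E) (O : Set (N × N))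
    (κ₁ κ₂ : N × N → N) (θ₁ θ₂ : N × N → ℝ) (ζ : N × N → E) : Prop where
  isOpen : IsOpen O
  s1 : ContDiffOn ℝ ∞ κ₁ O
  s2 : ContDiffOn ℝ ∞ κ₂ O
  t1 : ContDiffOn ℝ ∞ θ₁ O
  t2 : ContDiffOn ℝ ∞ θ₂ O
  mem : ∀ x ∈ O, x.1 ∈ Ω₁ ∧ x.2 ∈ Ω₂
  end1 : ∀ x ∈ O, cF Φ ψ₁ κ₁ x 1 = ψ₂ x.2
  end2 : ∀ x ∈ O, cF Φ ψ₁ κ₂ x 1 = ψ₂ x.2
  cr1 : ∀ x ∈ O, cF Φ ψ₁ κ₁ x (θ₁ x) = ζ x
  cr2 : ∀ x ∈ O, cF Φ ψ₁ κ₂ x (θ₂ x) = ζ x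
  time1 : ∀ x ∈ O, 0 < θ₁ x ∧ θ₁ x < 1
  time2 : ∀ x ∈ O, 0 < θ₂ x ∧ θ₂ x < 1
  ne1 : ∀ x ∈ O, κ₁ x ≠ 0
  ne2 : ∀ x ∈ O, κ₂ x ≠ 0
  ind0 : ∀ x ∈ O, Indep (deriv (cF Φ ψ₁ κ₁ x) 0) (deriv (cF Φ ψ₁ κ₂ x) 0)
  ind1 : ∀ x ∈ O, Indep (deriv (cF Φ ψ₁ κ₁ x) 1) (deriv (cF Φ ψ₁ κ₂ x) 1)

variable {O : Set (N × N)} {κ₁ κ₂ : N × N → N} {θ₁ θ₂ : N × N → ℝ} {ζ : N × N → E}

theorem PP.smooth_ζ (h : GFlow F S A K K₂ Φ) (hp₁ : Patch S Ω₁ ψ₁ P₁ W₁)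
    (hpp : PP Φ Ω₁ Ω₂ ψ₁ ψ₂ O κ₁ κ₂ θ₁ θ₂ ζ) : ContDiffOn ℝ ∞ ζ O := by
  have h1 := (smooth_cF h hp₁ hpp.isOpen hpp.s1 fun x hx => (hpp.mem x hx).1).1
  have h2 : ContDiffOn ℝ ∞ (fun x => cF Φ ψ₁ κ₁ x (θ₁ x)) O :=
    h1.comp (contDiffOn_id.prodMk hpp.t1) fun x hx => ⟨hx, mem_univ _⟩
  exact h2.congr fun x hx => (hpp.cr1 x hx).symm

theorem end_q (h : GFlow F S A K K₂ Φ) (hsec : Secure S) (hp₁ : Patch S Ω₁ ψ₁ P₁ W₁)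
    (hc₂ : Patch S Ω₂ ψ₂ P₂ W₂) (hO : IsOpen O) {κ : N × N → N} {θ : N × N → ℝ}
    (hκ : ContDiffOn ℝ ∞ κ O) (hθ : ContDiffOn ℝ ∞ θ O) (hm : ∀ x ∈ O, x.1 ∈ Ω₁ ∧ x.2 ∈ Ω₂)
    (hend : ∀ x ∈ O, cF Φ ψ₁ κ x 1 = ψ₂ x.2) (hcr : ∀ x ∈ O, cF Φ ψ₁ κ x (θ x) = ζ x)
    (htime : ∀ x ∈ O, 0 < θ x) (hne : ∀ x ∈ O, κ x ≠ 0) {p : N} {c : ℝ → N} {k : N}
    (hc0 : (p, c 0) ∈ O) (hc : HasDerivAt c k 0)
    (hcz : ∀ᶠ τ in 𝓝 (0 : ℝ), ζ (p, c τ) = ζ (p, c 0)) :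
    ∃ a : ℝ, fderiv ℝ ψ₂ (c 0) k = a • deriv (cF Φ ψ₁ κ (p, c 0)) 1 := by
  have hpc : ContinuousAt (fun τ => ((p, c τ) : N × N)) 0 := continuousAt_const.prodMk hc.continuousAt
  have hO' : ∀ᶠ τ in 𝓝 (0 : ℝ), (p, c τ) ∈ O := hpc.preimage_mem_nhds (hO.mem_nhds hc0)
  have hpd : DifferentiableAt ℝ (fun τ => ((p, c τ) : N × N)) 0 :=
    (differentiableAt_const p).prodMk hc.differentiableAt
  have hp : p ∈ Ω₁ := (hm _ hc0).1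
  have hκd : DifferentiableAt ℝ κ (p, c 0) :=
    ((hκ _ hc0).contDiffAt (hO.mem_nhds hc0)).differentiableAt (by simp)
  have hκc : DifferentiableAt ℝ (fun τ => κ (p, c τ)) 0 :=
    DifferentiableAt.comp (g := κ) (f := fun τ => ((p, c τ) : N × N)) (0 : ℝ) hκd hpd
  have hu : DifferentiableAt ℝ (fun τ => fderiv ℝ ψ₁ p (κ (p, c τ))) 0 :=
    DifferentiableAt.comp (g := fderiv ℝ ψ₁ p) (f := fun τ => κ (p, c τ)) (0 : ℝ)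
      (fderiv ℝ ψ₁ p).differentiableAt hκc
  have hθc : ContinuousAt (fun τ => θ (p, c τ)) 0 := by
    have h1 : ContinuousAt θ (p, c 0) := ((hθ _ hc0).contDiffAt (hO.mem_nhds hc0)).continuousAt
    exact ContinuousAt.comp (g := θ) (f := fun τ => ((p, c τ) : N × N)) h1 hpc
  have hψ : HasDerivAt (fun τ => ψ₂ (c τ)) (fderiv ℝ ψ₂ (c 0) k) 0 :=
    (hc₂.hasFDerivAt (hm _ hc0).2).comp_hasDerivAt (0 : ℝ) hc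
  have hZS : ζ (p, c 0) ∈ S := by
    rw [← hcr _ hc0]; exact mem_G1 h hp₁ hp _ _
  exact stay_end h hsec (hp₁.mem p hp) hZS (u := fun τ => fderiv ℝ ψ₁ p (κ (p, c τ))) hu
    (Eventually.of_forall fun τ => hp₁.mem_TSet h.sub hp _)
    (fderiv_ne_zero hp₁ hp (hne _ hc0)) hθc (htime _ hc0).ne' (by
      filter_upwards [hO', hcz] with τ h1 h2
      rw [← h2]
      exact hcr _ h1) hψ (by
      filter_upwards [hO'] with τ h1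
      exact hend _ h1)

theorem end_p (h : GFlow F S A K K₂ Φ) (hsec : Secure S) (hp₁ : Patch S Ω₁ ψ₁ P₁ W₁)
    (hc₂ : Patch S Ω₂ ψ₂ P₂ W₂) (hO : IsOpen O) {κ : N × N → N} {θ : N × N → ℝ}
    (hκ : ContDiffOn ℝ ∞ κ O) (hθ : ContDiffOn ℝ ∞ θ O) (hm : ∀ x ∈ O, x.1 ∈ Ω₁ ∧ x.2 ∈ Ω₂)
    (hend : ∀ x ∈ O, cF Φ ψ₁ κ x 1 = ψ₂ x.2) (hcr : ∀ x ∈ O, cF Φ ψ₁ κ x (θ x) = ζ x)
    (htime : ∀ x ∈ O, θ x < 1) (hne : ∀ x ∈ O, κ x ≠ 0) {q : N} {c : ℝ → N} {k : N}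
    (hc0 : (c 0, q) ∈ O) (hc : HasDerivAt c k 0)
    (hcz : ∀ᶠ τ in 𝓝 (0 : ℝ), ζ (c τ, q) = ζ (c 0, q)) :
    ∃ a : ℝ, fderiv ℝ ψ₁ (c 0) k = a • deriv (cF Φ ψ₁ κ (c 0, q)) 0 := by
  have hpc : ContinuousAt (fun τ => ((c τ, q) : N × N)) 0 := hc.continuousAt.prodMk continuousAt_const
  have hO' : ∀ᶠ τ in 𝓝 (0 : ℝ), (c τ, q) ∈ O := hpc.preimage_mem_nhds (hO.mem_nhds hc0)
  have hpd : DifferentiableAt ℝ (fun τ => ((c τ, q) : N × N)) 0 :=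
    hc.differentiableAt.prodMk (differentiableAt_const q)
  have hq : q ∈ Ω₂ := (hm _ hc0).2
  have hgeo : ∀ x ∈ O, IsGeo S (cF Φ ψ₁ κ x) := fun x hx => (isGeo_G1 h hp₁ (hm x hx).1 _).1
  have hrev : ∀ x ∈ O, ∀ t, Geo Φ (ψ₂ x.2) (-deriv (cF Φ ψ₁ κ x) 1) t = cF Φ ψ₁ κ x (1 - t) := by
    intro x hx t
    have h1 := h.Geo_add (hgeo x hx) 1 (-1) t
    rw [neg_one_smul, hend x hx] at h1
    rw [h1]
    congr 1; ring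
  have hdd : DifferentiableAt ℝ (fun y : (N × N) × ℝ => deriv (cF Φ ψ₁ κ y.1) y.2) ((c 0, q), 1) := by
    have h1 := (smooth_cF h hp₁ hO hκ fun x hx => (hm x hx).1).2
    exact ((h1 _ ⟨hc0, mem_univ _⟩).contDiffAt ((hO.prod isOpen_univ).mem_nhds
      ⟨hc0, mem_univ _⟩)).differentiableAt (by simp)
  have hu : DifferentiableAt ℝ (fun τ => -deriv (cF Φ ψ₁ κ (c τ, q)) 1) 0 := by
    have h1 : DifferentiableAt ℝ (fun τ => (((c τ, q), (1 : ℝ)) : (N × N) × ℝ)) 0 :=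
      hpd.prodMk (differentiableAt_const _)
    exact (DifferentiableAt.comp (g := fun y : (N × N) × ℝ => deriv (cF Φ ψ₁ κ y.1) y.2)
      (f := fun τ => (((c τ, q), (1 : ℝ)) : (N × N) × ℝ)) (0 : ℝ) hdd h1).neg
  have hθc : ContinuousAt (fun τ => 1 - θ (c τ, q)) 0 := by
    have h1 : ContinuousAt θ (c 0, q) := ((hθ _ hc0).contDiffAt (hO.mem_nhds hc0)).continuousAt
    exact continuousAt_const.sub
      (ContinuousAt.comp (g := θ) (f := fun τ => ((c τ, q) : N × N)) h1 hpc)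
  have hψ : HasDerivAt (fun τ => ψ₁ (c τ)) (fderiv ℝ ψ₁ (c 0) k) 0 :=
    (hp₁.hasFDerivAt (hm _ hc0).1).comp_hasDerivAt (0 : ℝ) hc
  have hZS : ζ (c 0, q) ∈ S := by
    rw [← hcr _ hc0]; exact mem_G1 h hp₁ (hm _ hc0).1 _ _
  have hne0 : deriv (cF Φ ψ₁ κ (c 0, q)) 1 ≠ 0 := by
    refine (hgeo _ hc0).deriv_ne S ?_ 1
    obtain ⟨-, -, g3⟩ := isGeo_G1 h hp₁ (hm _ hc0).1 (κ (c 0, q))
    show deriv (G1 Φ ψ₁ (c 0, κ (c 0, q))) 0 ≠ 0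
    rw [g3]
    exact fderiv_ne_zero hp₁ (hm _ hc0).1 (hne _ hc0)
  obtain ⟨a, ha⟩ := stay_end h hsec (hc₂.mem q hq) hZS
    (u := fun τ => -deriv (cF Φ ψ₁ κ (c τ, q)) 1) hu (by
      filter_upwards [hO'] with τ h1
      have h2 := (hgeo _ h1).mem_TSet 1
      rw [hend _ h1] at h2
      have h3 := scale_TSet h2 h.sub (-1)
      rwa [neg_one_smul] at h3)
    (neg_ne_zero.2 hne0) hθc (by
      have := htime _ hc0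
      show 1 - θ (c 0, q) ≠ 0
      linarith) (by
      filter_upwards [hO', hcz] with τ h1 h2
      rw [← h2, hrev _ h1, ← hcr _ h1]
      congr 1; ring) hψ (by
      filter_upwards [hO'] with τ h1
      rw [hrev _ h1, sub_self]
      exact (isGeo_G1 h hp₁ (hm _ h1).1 (κ (c τ, q))).2.1)
  have h1 : deriv (Geo Φ (ψ₂ q) (-deriv (cF Φ ψ₁ κ (c 0, q)) 1)) 1
      = -deriv (cF Φ ψ₁ κ (c 0, q)) 0 := by
    have h2 : Geo Φ (ψ₂ q) (-deriv (cF Φ ψ₁ κ (c 0, q)) 1) = fun t => cF Φ ψ₁ κ (c 0, q) (1 - t) :=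
      funext fun t => hrev _ hc0 t
    rw [h2]
    have h3 : HasDerivAt (fun t : ℝ => 1 - t) (-1) 1 := by
      simpa using (hasDerivAt_id (1 : ℝ)).const_sub 1
    have h4 : HasDerivAt (cF Φ ψ₁ κ (c 0, q)) (deriv (cF Φ ψ₁ κ (c 0, q)) 0) ((1 : ℝ) - 1) := by
      rw [sub_self]; exact (hgeo _ hc0).hasDerivAt 0
    have h5 := HasDerivAt.scomp (g₁ := cF Φ ψ₁ κ (c 0, q)) (h := fun t : ℝ => 1 - t) (1 : ℝ) h4 h3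
    have h6 := h5.deriv
    rw [neg_one_smul] at h6
    exact h6
  refine ⟨-a, ?_⟩
  rw [ha, h1, smul_neg, neg_smul]

theorem PP.exists_inj_q (h : GFlow F S A K K₂ Φ) (hsec : Secure S) (hp₁ : Patch S Ω₁ ψ₁ P₁ W₁)
    (hc₂ : Patch S Ω₂ ψ₂ P₂ W₂) (hpp : PP Φ Ω₁ Ω₂ ψ₁ ψ₂ O κ₁ κ₂ θ₁ θ₂ ζ) {V : Set (N × N)}
    (hV : IsOpen V) (hne : V.Nonempty) (hVO : V ⊆ O) :
    ∃ x ∈ V, ∀ b : N, fderiv ℝ ζ x (0, b) = 0 → b = 0 := by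
  by_contra hcon
  push Not at hcon
  obtain ⟨⟨p, q₀⟩, hx₀⟩ := hne
  have hζ := hpp.smooth_ζ h hp₁
  have hin : ContDiff ℝ ∞ (fun q : N => ((p, q) : N × N)) := contDiff_const.prodMk contDiff_id
  have hUo : IsOpen {q : N | (p, q) ∈ V} := hV.preimage hin.continuous
  have hfd : ∀ q, (p, q) ∈ V → HasFDerivAt (fun q => ζ (p, q))
      ((fderiv ℝ ζ (p, q)) ∘L (ContinuousLinearMap.inr ℝ N N)) q := by
    intro q hq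
    have h1 : HasFDerivAt ζ (fderiv ℝ ζ (p, q)) (p, q) :=
      hasFDerivAt_of_open hpp.isOpen hζ (hVO hq)
    have h2 : HasFDerivAt (fun q : N => ((p, q) : N × N)) (ContinuousLinearMap.inr ℝ N N) q :=
      (hasFDerivAt_const p q).prodMk (hasFDerivAt_id q)
    exact HasFDerivAt.comp q (g := ζ) (f := fun q : N => ((p, q) : N × N)) h1 h2
  obtain ⟨q₁, hq₁, c, k, hk0, hc0, hc, hev⟩ := exists_fiber_curve hUo ⟨q₀, hx₀⟩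
    (f := fun q => ζ (p, q)) (hζ.comp hin.contDiffOn fun q hq => hVO hq) (by
      intro q hq
      obtain ⟨b, hb1, hb2⟩ := hcon (p, q) hq
      refine ⟨b, hb2, ?_⟩
      rw [(hfd q hq).fderiv]
      exact hb1)
  have hcz : ∀ᶠ τ in 𝓝 (0 : ℝ), ζ (p, c τ) = ζ (p, c 0) := by
    filter_upwards [hev] with τ hτ
    rw [hc0]; exact hτ.2.2
  have hmO : (p, c 0) ∈ O := by rw [hc0]; exact hVO hq₁
  obtain ⟨a, ha⟩ := end_q h hsec hp₁ hc₂ hpp.isOpen hpp.s1 hpp.t1 hpp.mem hpp.end1 hpp.cr1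
    (fun x hx => (hpp.time1 x hx).1) hpp.ne1 hmO hc hcz
  obtain ⟨b, hb⟩ := end_q h hsec hp₁ hc₂ hpp.isOpen hpp.s2 hpp.t2 hpp.mem hpp.end2 hpp.cr2
    (fun x hx => (hpp.time2 x hx).1) hpp.ne2 hmO hc hcz
  have h1 := hpp.ind1 _ hmO a b (by rw [← ha, hb])
  rw [h1.1, zero_smul] at ha
  exact fderiv_ne_zero hc₂ (hpp.mem _ hmO).2 hk0 ha

theorem PP.exists_inj_p (h : GFlow F S A K K₂ Φ) (hsec : Secure S) (hp₁ : Patch S Ω₁ ψ₁ P₁ W₁)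
    (hc₂ : Patch S Ω₂ ψ₂ P₂ W₂) (hpp : PP Φ Ω₁ Ω₂ ψ₁ ψ₂ O κ₁ κ₂ θ₁ θ₂ ζ) {V : Set (N × N)}
    (hV : IsOpen V) (hne : V.Nonempty) (hVO : V ⊆ O) :
    ∃ x ∈ V, ∀ b : N, fderiv ℝ ζ x (b, 0) = 0 → b = 0 := by
  by_contra hcon
  push Not at hcon
  obtain ⟨⟨p₀, q⟩, hx₀⟩ := hne
  have hζ := hpp.smooth_ζ h hp₁
  have hin : ContDiff ℝ ∞ (fun p : N => ((p, q) : N × N)) := contDiff_id.prodMk contDiff_const
  have hUo : IsOpen {p : N | (p, q) ∈ V} := hV.preimage hin.continuous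
  have hfd : ∀ p, (p, q) ∈ V → HasFDerivAt (fun p => ζ (p, q))
      ((fderiv ℝ ζ (p, q)) ∘L (ContinuousLinearMap.inl ℝ N N)) p := by
    intro p hq
    have h1 : HasFDerivAt ζ (fderiv ℝ ζ (p, q)) (p, q) :=
      hasFDerivAt_of_open hpp.isOpen hζ (hVO hq)
    have h2 : HasFDerivAt (fun p : N => ((p, q) : N × N)) (ContinuousLinearMap.inl ℝ N N) p :=
      (hasFDerivAt_id p).prodMk (hasFDerivAt_const q p)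
    exact HasFDerivAt.comp p (g := ζ) (f := fun p : N => ((p, q) : N × N)) h1 h2
  obtain ⟨q₁, hq₁, c, k, hk0, hc0, hc, hev⟩ := exists_fiber_curve hUo ⟨p₀, hx₀⟩
    (f := fun p => ζ (p, q)) (hζ.comp hin.contDiffOn fun q hq => hVO hq) (by
      intro p hq
      obtain ⟨b, hb1, hb2⟩ := hcon (p, q) hq
      refine ⟨b, hb2, ?_⟩
      rw [(hfd p hq).fderiv]
      exact hb1)
  have hcz : ∀ᶠ τ in 𝓝 (0 : ℝ), ζ (c τ, q) = ζ (c 0, q) := by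
    filter_upwards [hev] with τ hτ
    rw [hc0]; exact hτ.2.2
  have hmO : (c 0, q) ∈ O := by rw [hc0]; exact hVO hq₁
  obtain ⟨a, ha⟩ := end_p h hsec hp₁ hc₂ hpp.isOpen hpp.s1 hpp.t1 hpp.mem hpp.end1 hpp.cr1
    (fun x hx => (hpp.time1 x hx).2) hpp.ne1 hmO hc hcz
  obtain ⟨b, hb⟩ := end_p h hsec hp₁ hc₂ hpp.isOpen hpp.s2 hpp.t2 hpp.mem hpp.end2 hpp.cr2
    (fun x hx => (hpp.time2 x hx).2) hpp.ne2 hmO hc hcz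
  have h1 := hpp.ind0 _ hmO a b (by rw [← ha, hb])
  rw [h1.1, zero_smul] at ha
  exact fderiv_ne_zero hp₁ (hpp.mem _ hmO).1 hk0 ha

end Pool.Agent.H77.ND
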