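import Pool.Agent.H77.ND.Pair
import Pool.Agent.H59.ND.Lead

/-!
# Leaves: smooth families of connecting geodesics through a common moving point
-/

set_option autoImplicit false

open scoped InnerProductSpace Topology ContDiff
open Set Filter

namespace Pool.Agent.H77.ND

open Pool.Agent.H91.GE hiding G1 G11 Nondeg Br exists_br cF smooth_cF Cfg mem_TSet_of_map
open Pool.Agent.H59.LV Pool.Agent.H59.ND

variable {E F N : Type*} [NormedAddCommGroup E] [InnerProductSpace ℝ E] [FiniteDimensional ℝ E]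
  [NormedAddCommGroup F] [InnerProductSpace ℝ F] [FiniteDimensional ℝ F]
  [NormedAddCommGroup N] [NormedSpace ℝ N] [FiniteDimensional ℝ N]
  {S : Set E} {A : E × E → E} {K K₂ : NNReal} {Φ : ℝ → E × E → E × E}
  {Ω Ω₁ Ω₂ : Set N} {ψ ψ₁ ψ₂ : N → E} {P P₁ P₂ : E →L[ℝ] N} {W W₁ W₂ : Set E}

/-- A smooth family of connecting geodesics through the point `ζ`. -/
structure Lf (Φ : ℝ → E × E → E × E) (Ω₁ Ω₂ : Set N) (ψ₁ ψ₂ : N → E) (ζ : N × N → E)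
    (O : Set (N × N)) (V : Set N) (κ : N × N → N) (θ : N × N → ℝ) : Prop
    extends Br Φ Ω₁ Ω₂ ψ₁ ψ₂ O V κ where
  smooth_θ : ContDiffOn ℝ ∞ θ O
  cross : ∀ x ∈ O, cF Φ ψ₁ κ x (θ x) = ζ x

/-- Moving the end points along the geodesic. -/
theorem br_move (h : GFlow F S A K K₂ Φ) (hc₁ : Patch S Ω₁ ψ₁ P₁ W₁) (hc₂ : Patch S Ω₂ ψ₂ P₂ W₂)
    {O : Set (N × N)} {V : Set N} {κ : N × N → N} (hb : Br Φ Ω₁ Ω₂ ψ₁ ψ₂ O V κ) {y : N × N}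
    (hy : y ∈ O) : ∀ᶠ q : ℝ × ℝ in 𝓝 (0, 0),
      (P₁ (G1 Φ ψ₁ (y.1, κ y) q.1), P₂ (G1 Φ ψ₁ (y.1, κ y) (1 + q.2))) ∈ O ∧
      ∀ t, cF Φ ψ₁ κ (P₁ (G1 Φ ψ₁ (y.1, κ y) q.1), P₂ (G1 Φ ψ₁ (y.1, κ y) (1 + q.2))) t
        = G1 Φ ψ₁ (y.1, κ y) (q.1 + (1 + q.2 - q.1) * t) := by
  obtain ⟨m1, m2, m3, m4⟩ := hb.mem y hy
  obtain ⟨g1, g2, g3⟩ := isGeo_G1 h hc₁ m1 (κ y)
  set c := G1 Φ ψ₁ (y.1, κ y) with hc
  have hcc : Continuous c := g1.continuous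
  have hcd : Continuous (deriv c) := by
    rw [continuous_iff_continuousAt]
    exact fun t => (g1.hasDerivAt' t).continuousAt
  have f1 : ContinuousAt (fun q : ℝ × ℝ => (P₁ (c q.1), P₂ (c (1 + q.2)))) (0, 0) := by
    have : Continuous (fun q : ℝ × ℝ => (P₁ (c q.1), P₂ (c (1 + q.2)))) :=
      (P₁.continuous.comp (hcc.comp continuous_fst)).prodMk
        (P₂.continuous.comp (hcc.comp (continuous_const.add continuous_snd)))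
    exact this.continuousAt
  have f2 : ContinuousAt (fun q : ℝ × ℝ => c q.1) (0, 0) := (hcc.comp continuous_fst).continuousAt
  have f3 : ContinuousAt (fun q : ℝ × ℝ => c (1 + q.2)) (0, 0) :=
    (hcc.comp (continuous_const.add continuous_snd)).continuousAt
  have f4 : ContinuousAt (fun q : ℝ × ℝ => P₁ ((1 + q.2 - q.1) • deriv c q.1)) (0, 0) := by
    have : Continuous (fun q : ℝ × ℝ => P₁ ((1 + q.2 - q.1) • deriv c q.1)) :=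
      P₁.continuous.comp ((by fun_prop : Continuous fun q : ℝ × ℝ => 1 + q.2 - q.1).smul
        (hcd.comp continuous_fst))
    exact this.continuousAt
  have e1 : ∀ᶠ q : ℝ × ℝ in 𝓝 (0, 0), (P₁ (c q.1), P₂ (c (1 + q.2))) ∈ O := by
    refine f1.preimage_mem_nhds (hb.isOpen.mem_nhds ?_)
    show (P₁ (c 0), P₂ (c (1 + 0))) ∈ O
    rw [add_zero, g2, m4, hc₁.left _ m1, hc₂.left _ m2]
    exact hy
  have e2 : ∀ᶠ q : ℝ × ℝ in 𝓝 (0, 0), c q.1 ∈ W₁ := by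
    refine f2.preimage_mem_nhds (hc₁.V_open.mem_nhds ?_)
    show c 0 ∈ W₁
    rw [g2]; exact hc₁.maps _ m1
  have e3 : ∀ᶠ q : ℝ × ℝ in 𝓝 (0, 0), c (1 + q.2) ∈ W₂ := by
    refine f3.preimage_mem_nhds (hc₂.V_open.mem_nhds ?_)
    show c (1 + 0) ∈ W₂
    rw [add_zero, m4]; exact hc₂.maps _ m2
  have e4 : ∀ᶠ q : ℝ × ℝ in 𝓝 (0, 0), P₁ ((1 + q.2 - q.1) • deriv c q.1) ∈ V := by
    refine f4.preimage_mem_nhds (hb.V_open.mem_nhds ?_)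
    show P₁ ((1 + 0 - 0 : ℝ) • deriv c 0) ∈ V
    rw [add_zero, sub_zero, one_smul, g3, hc₁.κ_fderiv m1]
    exact m3
  filter_upwards [e1, e2, e3, e4] with q h1 h2 h3 h4
  refine ⟨h1, ?_⟩
  have hT : (c q.1, deriv c q.1) ∈ TSet S := g1.mem_TSet q.1
  obtain ⟨k1, k2, k3⟩ := hc₁.of_TSet h2 hT
  have hgeo : ∀ t, G1 Φ ψ₁ (P₁ (c q.1), P₁ ((1 + q.2 - q.1) • deriv c q.1)) t
      = c (q.1 + (1 + q.2 - q.1) * t) := by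
    intro t
    show Geo Φ (ψ₁ (P₁ (c q.1))) (fderiv ℝ ψ₁ (P₁ (c q.1)) (P₁ ((1 + q.2 - q.1) • deriv c q.1))) t = _
    rw [map_smul, map_smul, k2, k3]
    exact h.Geo_add g1 q.1 (1 + q.2 - q.1) t
  have hu := hb.uniq _ h1 _ h4 (by
    show G1 Φ ψ₁ (P₁ (c q.1), P₁ ((1 + q.2 - q.1) • deriv c q.1)) 1 = ψ₂ (P₂ (c (1 + q.2)))
    rw [hgeo, (hc₂.right _ (g1.mem _) h3).2]
    congr 1; ring)
  intro t
  show G1 Φ ψ₁ (P₁ (c q.1), κ (P₁ (c q.1), P₂ (c (1 + q.2)))) t = _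
  rw [← hu]
  exact hgeo t

/-- The derivative of the moving point in the directions of the geodesic. -/
theorem lf_first (h : GFlow F S A K K₂ Φ) (hc₁ : Patch S Ω₁ ψ₁ P₁ W₁)
    (hc₂ : Patch S Ω₂ ψ₂ P₂ W₂) {ζ : N × N → E}
    {O : Set (N × N)} {V : Set N} {κ : N × N → N} {θ : N × N → ℝ}
    (hl : Lf Φ Ω₁ Ω₂ ψ₁ ψ₂ ζ O V κ θ) {x : N × N} (hx : x ∈ O) (hζ : DifferentiableAt ℝ ζ x)
    (e : ℝ × ℝ) : ∃ a : ℝ, fderiv ℝ ζ x (e.1 • κ x, e.2 • P₂ (deriv (G1 Φ ψ₁ (x.1, κ x)) 1))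
      = a • deriv (G1 Φ ψ₁ (x.1, κ x)) (θ x) := by
  obtain ⟨m1, m2, m3, m4⟩ := hl.mem x hx
  obtain ⟨g1, g2, g3⟩ := isGeo_G1 h hc₁ m1 (κ x)
  have hmove := br_move h hc₁ hc₂ hl.toBr hx
  set c := G1 Φ ψ₁ (x.1, κ x) with hc
  have hlin : ∀ s r : ℝ, HasDerivAt (fun τ : ℝ => s + r * τ) r 0 := by
    intro s r
    simpa using ((hasDerivAt_id (0 : ℝ)).const_mul r).const_add s
  have hcomp : ∀ s r : ℝ, HasDerivAt (fun τ : ℝ => c (s + r * τ)) (r • deriv c s) 0 := by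
    intro s r
    exact HasDerivAt.scomp (g₁ := c) (h := fun τ : ℝ => s + r * τ) (0 : ℝ)
      (by rw [mul_zero, add_zero]; exact g1.hasDerivAt s) (hlin s r)
  -- the moving pair
  let X : ℝ → N × N := fun τ => (P₁ (c (0 + e.1 * τ)), P₂ (c (1 + e.2 * τ)))
  have hX0 : X 0 = x := by
    show (P₁ (c (0 + e.1 * 0)), P₂ (c (1 + e.2 * 0))) = x
    rw [mul_zero, mul_zero, add_zero, add_zero, g2, m4, hc₁.left _ m1, hc₂.left _ m2]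
  have hXd : HasDerivAt X (e.1 • κ x, e.2 • P₂ (deriv c 1)) 0 := by
    have h1 := P₁.hasFDerivAt.comp_hasDerivAt (0 : ℝ) (hcomp 0 e.1)
    have h2 := P₂.hasFDerivAt.comp_hasDerivAt (0 : ℝ) (hcomp 1 e.2)
    rw [map_smul, g3, hc₁.κ_fderiv m1] at h1
    rw [map_smul] at h2
    exact h1.prodMk h2
  let φ : ℝ → ℝ := fun τ => e.1 * τ + (1 + e.2 * τ - e.1 * τ) * θ (X τ)
  have hφ0 : φ 0 = θ x := by
    show e.1 * 0 + (1 + e.2 * 0 - e.1 * 0) * θ (X 0) = θ x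
    rw [hX0]; ring
  have hθd : DifferentiableAt ℝ (fun τ => θ (X τ)) 0 := by
    refine DifferentiableAt.comp (g := θ) (f := X) (0 : ℝ) ?_ hXd.differentiableAt
    rw [hX0]
    exact (contDiffAt_of_open hl.isOpen hl.smooth_θ hx).differentiableAt (by simp)
  have hφd : DifferentiableAt ℝ φ 0 := by
    have h1 : DifferentiableAt ℝ (fun τ : ℝ => e.1 * τ) 0 := by fun_prop
    have h2 : DifferentiableAt ℝ (fun τ : ℝ => 1 + e.2 * τ - e.1 * τ) 0 := by fun_prop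
    exact h1.add (h2.mul hθd)
  have hq : ContinuousAt (fun τ : ℝ => ((e.1 * τ, e.2 * τ) : ℝ × ℝ)) 0 := by fun_prop
  have hev : ∀ᶠ τ in 𝓝 (0 : ℝ), ζ (X τ) = c (φ τ) := by
    have h1 : ∀ᶠ τ in 𝓝 (0 : ℝ), ((P₁ (c (e.1 * τ)), P₂ (c (1 + e.2 * τ))) ∈ O ∧
      ∀ t, cF Φ ψ₁ κ (P₁ (c (e.1 * τ)), P₂ (c (1 + e.2 * τ))) t
        = c (e.1 * τ + (1 + e.2 * τ - e.1 * τ) * t)) := by
      have h2 : Tendsto (fun τ : ℝ => ((e.1 * τ, e.2 * τ) : ℝ × ℝ)) (𝓝 0) (𝓝 (0, 0)) := by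
        have h3 := hq.tendsto
        simpa using h3
      exact h2.eventually hmove
    filter_upwards [h1] with τ hτ
    have h2 : X τ = (P₁ (c (e.1 * τ)), P₂ (c (1 + e.2 * τ))) := by
      show (P₁ (c (0 + e.1 * τ)), P₂ (c (1 + e.2 * τ))) = _
      rw [zero_add]
    have h3 : X τ ∈ O := by rw [h2]; exact hτ.1
    rw [← hl.cross _ h3]
    show cF Φ ψ₁ κ (X τ) (θ (X τ)) = c (e.1 * τ + (1 + e.2 * τ - e.1 * τ) * θ (X τ))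
    rw [← hτ.2, ← h2]
  have hd1 : HasDerivAt (fun τ => ζ (X τ)) (fderiv ℝ ζ x (e.1 • κ x, e.2 • P₂ (deriv c 1))) 0 := by
    refine HasFDerivAt.comp_hasDerivAt (l := ζ) (f := X) (0 : ℝ) ?_ hXd
    rw [hX0]; exact hζ.hasFDerivAt
  have hd2 : HasDerivAt (fun τ => c (φ τ)) (deriv φ 0 • deriv c (θ x)) 0 := by
    refine HasDerivAt.scomp (g₁ := c) (h := φ) (0 : ℝ) ?_ hφd.hasDerivAt
    rw [hφ0]; exact g1.hasDerivAt _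
  exact ⟨deriv φ 0, hd1.unique (hd2.congr_of_eventuallyEq hev)⟩

/-- Two leaves through the same point form a persistent pair. -/
theorem pp_of_lf (h : GFlow F S A K K₂ Φ) (hp₁ : Patch S Ω₁ ψ₁ P₁ W₁) {ζ : N × N → E}
    {O₀ O₁ : Set (N × N)} {V₀ V₁ : Set N} {κ₀ κ₁ : N × N → N} {θ₀ θ₁ : N × N → ℝ}
    (h0 : Lf Φ Ω₁ Ω₂ ψ₁ ψ₂ ζ O₀ V₀ κ₀ θ₀) (h1 : Lf Φ Ω₁ Ω₂ ψ₁ ψ₂ ζ O₁ V₁ κ₁ θ₁) {x : N × N}
    (hx0 : x ∈ O₀) (hx1 : x ∈ O₁) (hp : Pair2 Φ Ω₁ Ω₂ ψ₁ ψ₂ x ((κ₀ x, κ₁ x), (θ₀ x, θ₁ x))) :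
    ∃ O : Set (N × N), x ∈ O ∧ O ⊆ O₀ ∧ O ⊆ O₁ ∧ PP Φ Ω₁ Ω₂ ψ₁ ψ₂ O κ₀ κ₁ θ₀ θ₁ ζ := by
  obtain ⟨-, -, ⟨⟨t1, t2⟩, t3, t4⟩, ⟨n1, n2⟩, -, i0, i1⟩ := hp
  simp only at t1 t2 t3 t4 n1 n2 i0 i1
  have c1 : ContinuousAt κ₀ x := (contDiffAt_of_open h0.isOpen h0.smooth hx0).continuousAt
  have c2 : ContinuousAt κ₁ x := (contDiffAt_of_open h1.isOpen h1.smooth hx1).continuousAt
  have c3 : ContinuousAt θ₀ x := (contDiffAt_of_open h0.isOpen h0.smooth_θ hx0).continuousAt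
  have c4 : ContinuousAt θ₁ x := (contDiffAt_of_open h1.isOpen h1.smooth_θ hx1).continuousAt
  have cd : ∀ {O : Set (N × N)} {κ : N × N → N}, IsOpen O → ContDiffOn ℝ ∞ κ O →
      (∀ x ∈ O, x.1 ∈ Ω₁) → x ∈ O → ∀ t : ℝ, ContinuousAt (fun x => deriv (cF Φ ψ₁ κ x) t) x := by
    intro O κ hO hκ hm hx t
    have q1 := (smooth_cF h hp₁ hO hκ hm).2
    have q2 : ContinuousAt (fun y : (N × N) × ℝ => deriv (cF Φ ψ₁ κ y.1) y.2) (x, t) :=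
      ((q1 _ ⟨hx, mem_univ _⟩).contDiffAt ((hO.prod isOpen_univ).mem_nhds
        ⟨hx, mem_univ _⟩)).continuousAt
    exact ContinuousAt.comp (g := fun y : (N × N) × ℝ => deriv (cF Φ ψ₁ κ y.1) y.2)
      (f := fun x : N × N => ((x, t) : (N × N) × ℝ)) q2 (by fun_prop)
  have d0 := cd h0.isOpen h0.smooth (fun x hx => (h0.mem x hx).1) hx0
  have d1 := cd h1.isOpen h1.smooth (fun x hx => (h1.mem x hx).1) hx1
  have e1 : ∀ᶠ y in 𝓝 x, 0 < θ₀ y ∧ θ₀ y < 1 :=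
    (c3.eventually_const_lt t1).and (c3.eventually_lt_const t2)
  have e2 : ∀ᶠ y in 𝓝 x, 0 < θ₁ y ∧ θ₁ y < 1 :=
    (c4.eventually_const_lt t3).and (c4.eventually_lt_const t4)
  have e3 : ∀ᶠ y in 𝓝 x, κ₀ y ≠ 0 ∧ κ₁ y ≠ 0 := (c1.eventually_ne n1).and (c2.eventually_ne n2)
  have e4 := indep_eventually (d0 0) (d1 0) i0
  have e5 := indep_eventually (d0 1) (d1 1) i1
  have e6 : ∀ᶠ y in 𝓝 x, y ∈ O₀ := h0.isOpen.mem_nhds hx0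
  have e7 : ∀ᶠ y in 𝓝 x, y ∈ O₁ := h1.isOpen.mem_nhds hx1
  have hev := e6.and (e7.and (e1.and (e2.and (e3.and (e4.and e5)))))
  obtain ⟨O, hO, hOo, hxO⟩ := mem_nhds_iff.1 hev
  refine ⟨O, hxO, fun y hy => (hO hy).1, fun y hy => (hO hy).2.1, ?_⟩
  exact
    { isOpen := hOo
      s1 := h0.smooth.mono fun y hy => (hO hy).1
      s2 := h1.smooth.mono fun y hy => (hO hy).2.1
      t1 := h0.smooth_θ.mono fun y hy => (hO hy).1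
      t2 := h1.smooth_θ.mono fun y hy => (hO hy).2.1
      mem := fun y hy => ⟨(h0.mem y (hO hy).1).1, (h0.mem y (hO hy).1).2.1⟩
      end1 := fun y hy => (h0.mem y (hO hy).1).2.2.2
      end2 := fun y hy => (h1.mem y (hO hy).2.1).2.2.2
      cr1 := fun y hy => h0.cross y (hO hy).1
      cr2 := fun y hy => h1.cross y (hO hy).2.1
      time1 := fun y hy => (hO hy).2.2.1
      time2 := fun y hy => (hO hy).2.2.2.1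
      ne1 := fun y hy => (hO hy).2.2.2.2.1.1
      ne2 := fun y hy => (hO hy).2.2.2.2.1.2
      ind0 := fun y hy => (hO hy).2.2.2.2.2.1
      ind1 := fun y hy => (hO hy).2.2.2.2.2.2 }

/-- All geodesics through the crossing point of two of them form leaves with the same point. -/
theorem exists_lf (hdim : Module.finrank ℝ E = Module.finrank ℝ F + Module.finrank ℝ N)
    (h : GFlow F S A K K₂ Φ) (hp₁ : Patch S Ω₁ ψ₁ P₁ W₁) (hc₂ : Patch S Ω₂ ψ₂ P₂ W₂)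
    {x : N × N} {z : E} (hgood : ∀ y, Tri Φ Ω₁ Ω₂ ψ₁ ψ₂ x y → GoodT Φ ψ₁ ψ₂ x y) {w₀ w₁ : N}
    {s₀ s₁ : ℝ} (c₀ : Cfg Φ Ω₁ Ω₂ ψ₁ ψ₂ x w₀) (c₁ : Cfg Φ Ω₁ Ω₂ ψ₁ ψ₂ x w₁)
    (hz₀ : G1 Φ ψ₁ (x.1, w₀) s₀ = z) (hz₁ : G1 Φ ψ₁ (x.1, w₁) s₁ = z)
    (hi : Indep (deriv (G1 Φ ψ₁ (x.1, w₀)) s₀) (deriv (G1 Φ ψ₁ (x.1, w₁)) s₁)) :
    ∃ ζ : N × N → E, DifferentiableAt ℝ ζ x ∧ (∀ᶠ y in 𝓝 x, ζ y ∈ S) ∧ ζ x = z ∧
      (∃ (O : Set (N × N)) (V : Set N) (κ : N × N → N) (θ : N × N → ℝ),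
        Lf Φ Ω₁ Ω₂ ψ₁ ψ₂ ζ O V κ θ ∧ x ∈ O ∧ κ x = w₀ ∧ θ x = s₀) ∧
      ∀ (w : N) (s : ℝ), Cfg Φ Ω₁ Ω₂ ψ₁ ψ₂ x w → G1 Φ ψ₁ (x.1, w) s = z →
        Indep (deriv (G1 Φ ψ₁ (x.1, w₀)) s₀) (deriv (G1 Φ ψ₁ (x.1, w)) s) →
        ∃ (O : Set (N × N)) (V : Set N) (κ : N × N → N) (θ : N × N → ℝ),
          Lf Φ Ω₁ Ω₂ ψ₁ ψ₂ ζ O V κ θ ∧ x ∈ O ∧ κ x = w ∧ θ x = s := by
  obtain ⟨O0, V0, κ0, b0, hx0, hw0, k0⟩ := exists_br h hp₁ hc₂ c₀.1 c₀.2.1 c₀.2.2.1 c₀.2.2.2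
  obtain ⟨O1, V1, κ1, b1, hx1, hw1, k1⟩ := exists_br h hp₁ hc₂ c₁.1 c₁.2.1 c₁.2.2.1 c₁.2.2.2
  -- crossing of the branch of `w₀` with any other branch
  have hcr : ∀ (O2 : Set (N × N)) (V2 : Set N) (κ2 : N × N → N) (w : N) (s : ℝ),
      Br Φ Ω₁ Ω₂ ψ₁ ψ₂ O2 V2 κ2 → x ∈ O2 → κ2 x = w → G1 Φ ψ₁ (x.1, w) s = z →
      Indep (deriv (G1 Φ ψ₁ (x.1, w₀)) s₀) (deriv (G1 Φ ψ₁ (x.1, w)) s) →
      ∃ (O' : Set (N × N)) (V' : Set (ℝ × ℝ)) (σ : N × N → ℝ × ℝ), O' ⊆ O0 ∩ O2 ∧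
        Cr (cF Φ ψ₁ κ0) (cF Φ ψ₁ κ2) O' V' σ ∧ x ∈ O' ∧ (s₀, s) ∈ V' ∧ σ x = (s₀, s) := by
    intro O2 V2 κ2 w s b2 hx2 k2 hzs hind
    refine exists_cr hdim h hp₁ (b0.isOpen.inter b2.isOpen)
      (b0.smooth.mono inter_subset_left) (b2.smooth.mono inter_subset_right)
      (fun y hy => (b0.mem y hy.1).1) ⟨hx0, hx2⟩ (s₀ := (s₀, s)) ?_ ?_
    · show G1 Φ ψ₁ (x.1, κ0 x) s₀ = G1 Φ ψ₁ (x.1, κ2 x) s
      rw [k0, k2, hz₀, hzs]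
    · show Indep (deriv (G1 Φ ψ₁ (x.1, κ0 x)) s₀) (deriv (G1 Φ ψ₁ (x.1, κ2 x)) s)
      rw [k0, k2]; exact hind
  obtain ⟨O', V', σ, hsub, cr, hx', hs', hσ⟩ := hcr O1 V1 κ1 w₁ s₁ b1 hx1 k1 hz₁ hi
  have hO0 : O' ⊆ O0 := fun y hy => (hsub hy).1
  have hO1 : O' ⊆ O1 := fun y hy => (hsub hy).2
  set ζ : N × N → E := fun y => cF Φ ψ₁ κ0 y (σ y).1 with hζd
  have hζs : ContDiffOn ℝ ∞ ζ O' := by
    have q1 := (smooth_cF h hp₁ b0.isOpen b0.smooth fun y hy => (b0.mem y hy).1).1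
    exact q1.comp (contDiffOn_id.prodMk cr.smooth.fst) fun y hy => ⟨hO0 hy, mem_univ _⟩
  refine ⟨ζ, (contDiffAt_of_open cr.isOpen hζs hx').differentiableAt (by simp), ?_, ?_, ?_, ?_⟩
  · filter_upwards [cr.isOpen.mem_nhds hx'] with y hy
    exact mem_G1 h hp₁ (b0.mem y (hO0 hy)).1 _ _
  · show G1 Φ ψ₁ (x.1, κ0 x) (σ x).1 = z
    rw [k0, hσ]; exact hz₀
  · exact ⟨O', V0, κ0, fun y => (σ y).1, ⟨br_mono b0 cr.isOpen hO0, cr.smooth.fst,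
      fun y _ => rfl⟩, hx', k0, congrArg Prod.fst hσ⟩
  · intro w s cw hzs hind
    obtain ⟨O2, V2, κ2, b2, hx2, hw2, k2⟩ := exists_br h hp₁ hc₂ cw.1 cw.2.1 cw.2.2.1 cw.2.2.2
    obtain ⟨O'', V'', τ, hsub2, cr2, hx'', hs'', hτ⟩ := hcr O2 V2 κ2 w s b2 hx2 k2 hzs hind
    have htri : Tri Φ Ω₁ Ω₂ ψ₁ ψ₂ x ((w₀, w₁, w), (s₀, s₁, s)) :=
      ⟨c₀, c₁, cw, by rw [hz₀, hz₁], by rw [hz₀, hzs], hi, hind⟩
    have hg := hgood _ htri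
    set M : Set ((N × N × N) × (ℝ × ℝ × ℝ)) :=
      {y | (y.1.1 ∈ V0 ∧ y.1.2.1 ∈ V1 ∧ y.1.2.2 ∈ V2) ∧
      ((y.2.1, y.2.2.1) ∈ V' ∧ (y.2.1, y.2.2.2) ∈ V'')} with hM
    have hMo : IsOpen M := by
      have f1 : Continuous fun b : (N × N × N) × (ℝ × ℝ × ℝ) => b.1.1 := by fun_prop
      have f2 : Continuous fun b : (N × N × N) × (ℝ × ℝ × ℝ) => b.1.2.1 := by fun_prop
      have f3 : Continuous fun b : (N × N × N) × (ℝ × ℝ × ℝ) => b.1.2.2 := by fun_prop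
      have f4 : Continuous fun b : (N × N × N) × (ℝ × ℝ × ℝ) => (b.2.1, b.2.2.1) := by fun_prop
      have f5 : Continuous fun b : (N × N × N) × (ℝ × ℝ × ℝ) => (b.2.1, b.2.2.2) := by fun_prop
      exact ((b0.V_open.preimage f1).inter ((b1.V_open.preimage f2).inter
        (b2.V_open.preimage f3))).inter
        ((cr.V_open.preimage f4).inter (cr2.V_open.preimage f5))
    have hyM : ((w₀, w₁, w), (s₀, s₁, s)) ∈ M := ⟨⟨hw0, hw1, hw2⟩, hs', hs''⟩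
    have hag : ∀ᶠ x' in 𝓝 x, (σ x').1 = (τ x').1 ∧
        cF Φ ψ₁ κ0 x' (τ x').1 = cF Φ ψ₁ κ2 x' (τ x').2 := by
      filter_upwards [hg M (hMo.mem_nhds hyM), cr.isOpen.mem_nhds hx', cr2.isOpen.mem_nhds hx'']
        with x' h1 h2 h3
      obtain ⟨⟨⟨v1, v2, v3⟩, t1, t2, t3⟩, ⟨⟨n1, n2, n3⟩, n4, n5⟩, q1, q2, q3, q4, q5⟩ := h1
      simp only at n1 n2 n3 n4 n5 q1 q2 q3 q4 q5
      have u1 : v1 = κ0 x' := b0.uniq x' (hO0 h2) v1 n1 q1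
      have u2 : v2 = κ1 x' := b1.uniq x' (hO1 h2) v2 n2 q2
      have u3 : v3 = κ2 x' := b2.uniq x' (hsub2 h3).2 v3 n3 q3
      have g1 : cF Φ ψ₁ κ0 x' t1 = cF Φ ψ₁ κ1 x' t2 := by
        show G1 Φ ψ₁ (x'.1, κ0 x') t1 = G1 Φ ψ₁ (x'.1, κ1 x') t2
        rw [← u1, ← u2]; exact q4
      have g2 : cF Φ ψ₁ κ0 x' t1 = cF Φ ψ₁ κ2 x' t3 := by
        show G1 Φ ψ₁ (x'.1, κ0 x') t1 = G1 Φ ψ₁ (x'.1, κ2 x') t3
        rw [← u1, ← u3]; exact q5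
      have u4 : (t1, t2) = σ x' := cr.uniq x' h2 (t1, t2) n4 g1
      have u5 : (t1, t3) = τ x' := cr2.uniq x' h3 (t1, t3) n5 g2
      rw [← u4, ← u5]
      exact ⟨rfl, g2⟩
    obtain ⟨D, hD, hDo, hxD⟩ := mem_nhds_iff.1 hag
    have hDO : D ∩ O'' ⊆ O2 := fun y hy => (hsub2 hy.2).2
    refine ⟨D ∩ O'', V2, κ2, fun y => (τ y).2, ⟨br_mono b2 (hDo.inter cr2.isOpen) hDO,
      cr2.smooth.snd.mono inter_subset_right, fun y hy => ?_⟩, ⟨hxD, hx''⟩, k2,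
      congrArg Prod.snd hτ⟩
    obtain ⟨r1, r2⟩ := hD hy.1
    show cF Φ ψ₁ κ2 y (τ y).2 = cF Φ ψ₁ κ0 y (σ y).1
    rw [r1]; exact r2.symm

end Pool.Agent.H77.ND
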