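import Pool.Agent.H77.ND.Inj
import Pool.Agent.H91.GS.Resid

/-!
# At residual pairs both partial derivatives of every crossing point are injective
-/

set_option autoImplicit false

open scoped InnerProductSpace Topology ContDiff
open Set Filter

namespace Pool.Agent.H77.ND

open Pool.Agent.H91.GE hiding G1 G11 Nondeg Br exists_br cF smooth_cF Cfg mem_TSet_of_map
open Pool.Agent.H59.LV Pool.Agent.H59.ND

variable {E F N : Type*} [NormedAddCommGroup E] [InnerProductSpace ℝ E] [FiniteDimensional ℝ E]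
  [NormedAddCommGroup F] [InnerProductSpace ℝ F] [FiniteDimensional ℝ F]
  [NormedAddCommGroup N] [NormedSpace ℝ N] [FiniteDimensional ℝ N]
  {S : Set E} {A : E × E → E} {K K₂ : NNReal} {Φ : ℝ → E × E → E × E}
  {Ω Ω₁ Ω₂ : Set N} {ψ ψ₁ ψ₂ : N → E} {P P₁ P₂ : E →L[ℝ] N} {W W₁ W₂ : Set E}

omit [FiniteDimensional ℝ E] in
/-- Independence is an open condition. -/
theorem indep_eventually {X : Type*} [TopologicalSpace X] {x : X} {u v : X → E}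
    (hu : ContinuousAt u x) (hv : ContinuousAt v x) (h : Indep (u x) (v x)) :
    ∀ᶠ y in 𝓝 x, Indep (u y) (v y) := by
  let T : X → (ℝ × ℝ →L[ℝ] E) := fun y =>
    (ContinuousLinearMap.fst ℝ ℝ ℝ).smulRight (u y) - (ContinuousLinearMap.snd ℝ ℝ ℝ).smulRight (v y)
  have hc : ∀ (L : ℝ × ℝ →L[ℝ] ℝ) (u : X → E), ContinuousAt u x →
      ContinuousAt (fun y => L.smulRight (u y)) x := by
    intro L u hu
    have h1 : Continuous fun e : E => L.smulRight e :=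
      (ContinuousLinearMap.smulRightL ℝ (ℝ × ℝ) E L).continuous
    exact h1.continuousAt.comp hu
  have hT : ContinuousAt T x := (hc _ u hu).sub (hc _ v hv)
  have happ : ∀ y (b : ℝ × ℝ), T y b = b.1 • u y - b.2 • v y := fun y b => rfl
  have hinj : ∀ y, Function.Injective (T y) ↔ Indep (u y) (v y) := by
    intro y
    constructor
    · intro hi a b hab
      have h1 : T y (a, b) = T y 0 := by
        rw [happ, map_zero]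
        show a • u y - b • v y = 0
        rw [hab, sub_self]
      have h2 := hi h1
      exact ⟨congrArg Prod.fst h2, congrArg Prod.snd h2⟩
    · intro hi b b' hbb
      have h1 : T y (b - b') = 0 := by rw [map_sub, hbb, sub_self]
      rw [happ, sub_eq_zero] at h1
      obtain ⟨h2, h3⟩ := hi _ _ h1
      exact sub_eq_zero.1 (Prod.ext h2 h3)
  have hop : IsOpen {L : ℝ × ℝ →L[ℝ] E | Function.Injective L} :=
    ContinuousLinearMap.isOpen_injective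
  filter_upwards [hT.preimage_mem_nhds (hop.mem_nhds ((hinj x).2 h))] with y hy
  exact (hinj y).1 hy

/-- Two nondegenerate connecting geodesics which meet in between. -/
def Pair2 (Φ : ℝ → E × E → E × E) (Ω₁ Ω₂ : Set N) (ψ₁ ψ₂ : N → E) (x : N × N)
    (y : (N × N) × (ℝ × ℝ)) : Prop :=
  (Cfg Φ Ω₁ Ω₂ ψ₁ ψ₂ x y.1.1 ∧ Cfg Φ Ω₁ Ω₂ ψ₁ ψ₂ x y.1.2) ∧
    G1 Φ ψ₁ (x.1, y.1.1) y.2.1 = G1 Φ ψ₁ (x.1, y.1.2) y.2.2 ∧
    ((0 < y.2.1 ∧ y.2.1 < 1) ∧ (0 < y.2.2 ∧ y.2.2 < 1)) ∧ (y.1.1 ≠ 0 ∧ y.1.2 ≠ 0) ∧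
    Indep (deriv (G1 Φ ψ₁ (x.1, y.1.1)) y.2.1) (deriv (G1 Φ ψ₁ (x.1, y.1.2)) y.2.2) ∧
    Indep (deriv (G1 Φ ψ₁ (x.1, y.1.1)) 0) (deriv (G1 Φ ψ₁ (x.1, y.1.2)) 0) ∧
    Indep (deriv (G1 Φ ψ₁ (x.1, y.1.1)) 1) (deriv (G1 Φ ψ₁ (x.1, y.1.2)) 1)

/-- Every persistent crossing point through the configuration moves with both end points. -/
def GoodP (Φ : ℝ → E × E → E × E) (Ω₁ Ω₂ : Set N) (ψ₁ ψ₂ : N → E) (x : N × N)
    (y : (N × N) × (ℝ × ℝ)) : Prop :=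
  ∀ (O : Set (N × N)) (κ₁ κ₂ : N × N → N) (θ₁ θ₂ : N × N → ℝ) (ζ : N × N → E),
    PP Φ Ω₁ Ω₂ ψ₁ ψ₂ O κ₁ κ₂ θ₁ θ₂ ζ → x ∈ O → ((κ₁ x, κ₂ x), (θ₁ x, θ₂ x)) = y →
    (∀ b : N, fderiv ℝ ζ x (0, b) = 0 → b = 0) ∧ (∀ b : N, fderiv ℝ ζ x (b, 0) = 0 → b = 0)

omit [FiniteDimensional ℝ E] in
/-- Noninjectivity of a partial derivative is rare. -/
theorem nowhereDense_inj {O : Set (N × N)} (hO : IsOpen O) {ζ : N × N → E}
    (hζ : ContDiffOn ℝ ∞ ζ O) (J : N →L[ℝ] N × N)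
    (h : ∀ V : Set (N × N), IsOpen V → V.Nonempty → V ⊆ O →
      ∃ x ∈ V, ∀ b : N, fderiv ℝ ζ x (J b) = 0 → b = 0) :
    IsNowhereDense {x | x ∈ O ∧ ¬ ∀ b : N, fderiv ℝ ζ x (J b) = 0 → b = 0} := by
  have hiff : ∀ x, (∀ b : N, fderiv ℝ ζ x (J b) = 0 → b = 0) ↔
      Function.Injective ((fderiv ℝ ζ x) ∘L J : N →L[ℝ] E) := by
    intro x
    exact (injective_iff_map_eq_zero ((fderiv ℝ ζ x) ∘L J : N →L[ℝ] E)).symm
  have hc : ContinuousOn (fun x => (fderiv ℝ ζ x) ∘L J) O :=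
    (hζ.continuousOn_fderiv_of_isOpen hO (by simp)).clm_comp continuousOn_const
  have hop : IsOpen {L : N →L[ℝ] E | Function.Injective L} :=
    ContinuousLinearMap.isOpen_injective
  have hG : IsOpen (O ∩ (fun x => (fderiv ℝ ζ x) ∘L J) ⁻¹' {L : N →L[ℝ] E | Function.Injective L}) :=
    hc.isOpen_inter_preimage hO hop
  refine nowhereDense_of_rel hO hG.isClosed_compl (C := {x | x ∈ O ∧
    ¬ ∀ b : N, fderiv ℝ ζ x (J b) = 0 → b = 0}) ?_ ?_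
  · ext x
    constructor
    · rintro ⟨h1, h2⟩
      exact ⟨fun h3 => h2 ((hiff x).2 h3.2), h1⟩
    · rintro ⟨h1, h2⟩
      exact ⟨h2, fun h3 => h1 ⟨h2, (hiff x).1 h3⟩⟩
  · intro V hV hne hsub
    obtain ⟨x, hx, hb⟩ := h V hV hne fun x hx => (hsub hx).1
    exact (hsub hx).2 hb

theorem pair_meagre (hdim : Module.finrank ℝ E = Module.finrank ℝ F + Module.finrank ℝ N)
    (h : GFlow F S A K K₂ Φ) (hsec : Secure S) (hp₁ : Patch S Ω₁ ψ₁ P₁ W₁)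
    (hc₂ : Patch S Ω₂ ψ₂ P₂ W₂) :
    IsMeagre {x : N × N | ∃ y, Pair2 Φ Ω₁ Ω₂ ψ₁ ψ₂ x y ∧ ¬ GoodP Φ Ω₁ Ω₂ ψ₁ ψ₂ x y} := by
  have _i : ProperSpace N := FiniteDimensional.proper_real N
  set B : Set ((N × N) × ((N × N) × (ℝ × ℝ))) :=
    {b | Pair2 Φ Ω₁ Ω₂ ψ₁ ψ₂ b.1 b.2 ∧ ¬ GoodP Φ Ω₁ Ω₂ ψ₁ ψ₂ b.1 b.2} with hB
  have h1 : {x : N × N | ∃ y, Pair2 Φ Ω₁ Ω₂ ψ₁ ψ₂ x y ∧ ¬ GoodP Φ Ω₁ Ω₂ ψ₁ ψ₂ x y}
      = Prod.fst '' B := by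
    ext x
    constructor
    · rintro ⟨y, hy⟩; exact ⟨(x, y), hy, rfl⟩
    · rintro ⟨⟨x', y⟩, hy, rfl⟩; exact ⟨y, hy⟩
  rw [h1]
  refine meagre_of_local ?_
  rintro ⟨x₀, ⟨⟨w1, w2⟩, s1, s2⟩⟩ ⟨⟨⟨c1, c2⟩, e12, -, -, i12, -, -⟩, -⟩
  simp only at c1 c2 e12 i12
  obtain ⟨O1, V1, κ1, b1, hx1, hw1, k1⟩ := exists_br h hp₁ hc₂ c1.1 c1.2.1 c1.2.2.1 c1.2.2.2
  obtain ⟨O2, V2, κ2, b2, hx2, hw2, k2⟩ := exists_br h hp₁ hc₂ c2.1 c2.2.1 c2.2.2.1 c2.2.2.2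
  set O : Set (N × N) := O1 ∩ O2 with hO
  have hOo : IsOpen O := b1.isOpen.inter b2.isOpen
  have hxO : x₀ ∈ O := ⟨hx1, hx2⟩
  have sm1 : ContDiffOn ℝ ∞ κ1 O := b1.smooth.mono fun x hx => hx.1
  have sm2 : ContDiffOn ℝ ∞ κ2 O := b2.smooth.mono fun x hx => hx.2
  have hmO : ∀ x ∈ O, x.1 ∈ Ω₁ := fun x hx => (b1.mem x hx.1).1
  obtain ⟨O', V', σ, hsub, cr, hx', hs', hσ⟩ := exists_cr hdim h hp₁ hOo sm1 sm2 hmO hxO
    (s₀ := (s1, s2)) (by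
      show G1 Φ ψ₁ (x₀.1, κ1 x₀) s1 = G1 Φ ψ₁ (x₀.1, κ2 x₀) s2
      rw [k1, k2]; exact e12) (by
      show Indep (deriv (G1 Φ ψ₁ (x₀.1, κ1 x₀)) s1) (deriv (G1 Φ ψ₁ (x₀.1, κ2 x₀)) s2)
      rw [k1, k2]; exact i12)
  -- the region where the crossing persists
  let Q : N × N → Prop := fun x => x ∈ O' ∧ cF Φ ψ₁ κ1 x (σ x).1 = cF Φ ψ₁ κ2 x (σ x).2 ∧
    (0 < (σ x).1 ∧ (σ x).1 < 1) ∧ (0 < (σ x).2 ∧ (σ x).2 < 1) ∧ κ1 x ≠ 0 ∧ κ2 x ≠ 0 ∧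
    Indep (deriv (cF Φ ψ₁ κ1 x) 0) (deriv (cF Φ ψ₁ κ2 x) 0) ∧
    Indep (deriv (cF Φ ψ₁ κ1 x) 1) (deriv (cF Φ ψ₁ κ2 x) 1)
  set R : Set (N × N) := interior {x | Q x} with hR
  have hRo : IsOpen R := isOpen_interior
  have hRQ : ∀ x ∈ R, Q x := fun x hx => (interior_subset hx : x ∈ {x | Q x})
  have hRO : ∀ x ∈ R, x ∈ O := fun x hx => hsub (hRQ x hx).1
  set ζ : N × N → E := fun x => cF Φ ψ₁ κ1 x (σ x).1 with hζd
  have hpp : PP Φ Ω₁ Ω₂ ψ₁ ψ₂ R κ1 κ2 (fun x => (σ x).1) (fun x => (σ x).2) ζ :=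
    { isOpen := hRo
      s1 := sm1.mono hRO
      s2 := sm2.mono hRO
      t1 := (cr.smooth.mono fun x hx => (hRQ x hx).1).fst
      t2 := (cr.smooth.mono fun x hx => (hRQ x hx).1).snd
      mem := fun x hx => ⟨(b1.mem x (hRO x hx).1).1, (b1.mem x (hRO x hx).1).2.1⟩
      end1 := fun x hx => (b1.mem x (hRO x hx).1).2.2.2
      end2 := fun x hx => (b2.mem x (hRO x hx).2).2.2.2
      cr1 := fun x hx => rfl
      cr2 := fun x hx => (hRQ x hx).2.1.symm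
      time1 := fun x hx => (hRQ x hx).2.2.1
      time2 := fun x hx => (hRQ x hx).2.2.2.1
      ne1 := fun x hx => (hRQ x hx).2.2.2.2.1
      ne2 := fun x hx => (hRQ x hx).2.2.2.2.2.1
      ind0 := fun x hx => (hRQ x hx).2.2.2.2.2.2.1
      ind1 := fun x hx => (hRQ x hx).2.2.2.2.2.2.2 }
  have hζ := hpp.smooth_ζ h hp₁
  have m1 := nowhereDense_inj hRo hζ (ContinuousLinearMap.inr ℝ N N)
    fun V hV hne hVR => hpp.exists_inj_q h hsec hp₁ hc₂ hV hne hVR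
  have m2 := nowhereDense_inj hRo hζ (ContinuousLinearMap.inl ℝ N N)
    fun V hV hne hVR => hpp.exists_inj_p h hsec hp₁ hc₂ hV hne hVR
  set M : Set ((N × N) × ((N × N) × (ℝ × ℝ))) :=
    {b | b.1 ∈ O' ∧ (b.2.1.1 ∈ V1 ∧ b.2.1.2 ∈ V2) ∧ b.2.2 ∈ V'} with hM
  have hMo : IsOpen M := by
    have f1 : Continuous fun b : (N × N) × ((N × N) × (ℝ × ℝ)) => b.2.1.1 := by fun_prop
    have f2 : Continuous fun b : (N × N) × ((N × N) × (ℝ × ℝ)) => b.2.1.2 := by fun_prop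
    have f3 : Continuous fun b : (N × N) × ((N × N) × (ℝ × ℝ)) => b.2.2 := by fun_prop
    exact (cr.isOpen.preimage continuous_fst).inter (((b1.V_open.preimage f1).inter
      (b2.V_open.preimage f2)).inter (cr.V_open.preimage f3))
  refine ⟨M, hMo.mem_nhds ⟨hx', ⟨hw1, hw2⟩, hs'⟩, ?_⟩
  refine (m1.isMeagre.union m2.isMeagre).mono ?_
  rintro x ⟨⟨x', ⟨⟨v1, v2⟩, t⟩⟩, ⟨⟨⟨⟨d1, d2⟩, f12, ⟨tm1, tm2⟩, ⟨z1, z2⟩, j12, j0, j1⟩, hbad⟩, hMx⟩, rfl⟩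
  obtain ⟨n1, ⟨n2, n3⟩, n4⟩ := hMx
  simp only at d1 d2 f12 tm1 tm2 z1 z2 j12 j0 j1 n1 n2 n3 n4 hbad ⊢
  have hxO1 : x' ∈ O := hsub n1
  have u1 : v1 = κ1 x' := b1.uniq x' hxO1.1 v1 n2 d1.2.2.1
  have u2 : v2 = κ2 x' := b2.uniq x' hxO1.2 v2 n3 d2.2.2.1
  have g12 : cF Φ ψ₁ κ1 x' t.1 = cF Φ ψ₁ κ2 x' t.2 := by
    show G1 Φ ψ₁ (x'.1, κ1 x') t.1 = G1 Φ ψ₁ (x'.1, κ2 x') t.2
    rw [← u1, ← u2]; exact f12
  have u3 : t = σ x' := cr.uniq x' n1 t n4 g12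
  -- a persistent crossing point through the configuration with a noninjective derivative
  simp only [GoodP] at hbad
  push Not at hbad
  obtain ⟨Oa, κa, κb, θa, θb, ζa, hppa, hxa, hya, hni⟩ := hbad
  have ka : κa x' = v1 := congrArg (fun y : (N × N) × (ℝ × ℝ) => y.1.1) hya
  have kb : κb x' = v2 := congrArg (fun y : (N × N) × (ℝ × ℝ) => y.1.2) hya
  have ta : θa x' = t.1 := congrArg (fun y : (N × N) × (ℝ × ℝ) => y.2.1) hya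
  have tb : θb x' = t.2 := congrArg (fun y : (N × N) × (ℝ × ℝ) => y.2.2) hya
  have ca : ContinuousAt κa x' := (contDiffAt_of_open hppa.isOpen hppa.s1 hxa).continuousAt
  have cb : ContinuousAt κb x' := (contDiffAt_of_open hppa.isOpen hppa.s2 hxa).continuousAt
  have cta : ContinuousAt θa x' := (contDiffAt_of_open hppa.isOpen hppa.t1 hxa).continuousAt
  have ctb : ContinuousAt θb x' := (contDiffAt_of_open hppa.isOpen hppa.t2 hxa).continuousAt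
  have ev1 : ∀ᶠ x in 𝓝 x', κa x ∈ V1 := ca.preimage_mem_nhds (b1.V_open.mem_nhds (by rw [ka]; exact n2))
  have ev2 : ∀ᶠ x in 𝓝 x', κb x ∈ V2 := cb.preimage_mem_nhds (b2.V_open.mem_nhds (by rw [kb]; exact n3))
  have ev3 : ∀ᶠ x in 𝓝 x', (θa x, θb x) ∈ V' :=
    (cta.prodMk ctb).preimage_mem_nhds (cr.V_open.mem_nhds (by rw [ta, tb]; exact n4))
  have hev : ∀ᶠ x in 𝓝 x', x ∈ O' ∧ x ∈ Oa ∧ κ1 x = κa x ∧ κ2 x = κb x ∧ σ x = (θa x, θb x) := by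
    filter_upwards [ev1, ev2, ev3, cr.isOpen.mem_nhds n1, hppa.isOpen.mem_nhds hxa] with x q1 q2 q3
      q4 q5
    have r1 : κa x = κ1 x := b1.uniq x (hsub q4).1 _ q1 (hppa.end1 x q5)
    have r2 : κb x = κ2 x := b2.uniq x (hsub q4).2 _ q2 (hppa.end2 x q5)
    have r3 : (θa x, θb x) = σ x := by
      refine cr.uniq x q4 _ q3 ?_
      show G1 Φ ψ₁ (x.1, κ1 x) (θa x) = G1 Φ ψ₁ (x.1, κ2 x) (θb x)
      rw [← r1, ← r2]
      exact (hppa.cr1 x q5).trans (hppa.cr2 x q5).symm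
    exact ⟨q4, q5, r1.symm, r2.symm, r3.symm⟩
  have hQ : ∀ᶠ x in 𝓝 x', Q x := by
    filter_upwards [hev] with x ⟨q1, q2, q3, q4, q5⟩
    have r1 : cF Φ ψ₁ κ1 x = cF Φ ψ₁ κa x := by
      show G1 Φ ψ₁ (x.1, κ1 x) = G1 Φ ψ₁ (x.1, κa x)
      rw [q3]
    have r2 : cF Φ ψ₁ κ2 x = cF Φ ψ₁ κb x := by
      show G1 Φ ψ₁ (x.1, κ2 x) = G1 Φ ψ₁ (x.1, κb x)
      rw [q4]
    refine ⟨q1, ?_, ?_, ?_, ?_, ?_, ?_, ?_⟩
    · rw [r1, r2, q5]; exact (hppa.cr1 x q2).trans (hppa.cr2 x q2).symm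
    · rw [q5]; exact hppa.time1 x q2
    · rw [q5]; exact hppa.time2 x q2
    · rw [q3]; exact hppa.ne1 x q2
    · rw [q4]; exact hppa.ne2 x q2
    · rw [r1, r2]; exact hppa.ind0 x q2
    · rw [r1, r2]; exact hppa.ind1 x q2
  have hxR : x' ∈ R := mem_interior_iff_mem_nhds.2 hQ
  have hζe : ζa =ᶠ[𝓝 x'] ζ := by
    filter_upwards [hev] with x ⟨q1, q2, q3, q4, q5⟩
    show ζa x = G1 Φ ψ₁ (x.1, κ1 x) (σ x).1
    rw [q3, q5]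
    exact (hppa.cr1 x q2).symm
  rw [hζe.fderiv_eq] at hni
  by_cases hi : ∀ b : N, fderiv ℝ ζ x' (0, b) = 0 → b = 0
  · right
    refine ⟨hxR, fun h2 => ?_⟩
    obtain ⟨b, hb, hb0⟩ := hni hi
    exact hb0 (h2 b hb)
  · left
    exact ⟨hxR, hi⟩

end Pool.Agent.H77.ND
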