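import Pool.Agent.H59.ND.Base
import Pool.Agent.H91.GS.Loops

/-!
# Auxiliary facts on branches in every dimension
-/

set_option autoImplicit false

open scoped InnerProductSpace Topology ContDiff
open Set Filter

namespace Pool.Agent.H77.ND

open Pool.Agent.H91.GE hiding G1 G11 Nondeg Br exists_br cF smooth_cF Cfg mem_TSet_of_map
open Pool.Agent.H59.LV Pool.Agent.H59.ND

variable {E F N : Type*} [NormedAddCommGroup E] [InnerProductSpace ℝ E] [FiniteDimensional ℝ E]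
  [NormedAddCommGroup F] [InnerProductSpace ℝ F] [FiniteDimensional ℝ F]
  [NormedAddCommGroup N] [NormedSpace ℝ N] [FiniteDimensional ℝ N]
  {S : Set E} {A : E × E → E} {K K₂ : NNReal} {Φ : ℝ → E × E → E × E}
  {Ω Ω₁ Ω₂ : Set N} {ψ ψ₁ ψ₂ : N → E} {P P₁ P₂ : E →L[ℝ] N} {W W₁ W₂ : Set E}

omit [FiniteDimensional ℝ E] [FiniteDimensional ℝ N] in
theorem inj_fderiv (hp : Patch S Ω ψ P W) {x : N} (hx : x ∈ Ω) {v w : N}
    (h : fderiv ℝ ψ x v = fderiv ℝ ψ x w) : v = w := by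
  rw [← hp.κ_fderiv hx v, h, hp.κ_fderiv hx w]

omit [FiniteDimensional ℝ E] [FiniteDimensional ℝ N] in
theorem fderiv_ne_zero (hp : Patch S Ω ψ P W) {x : N} (hx : x ∈ Ω) {v : N} (hv : v ≠ 0) :
    fderiv ℝ ψ x v ≠ 0 := by
  intro h
  exact hv (inj_fderiv hp hx (by rw [h, map_zero]))

omit [FiniteDimensional ℝ E] [FiniteDimensional ℝ N] in
theorem br_mono {O O' : Set (N × N)} {V : Set N} {κ : N × N → N}
    (hb : Br Φ Ω₁ Ω₂ ψ₁ ψ₂ O V κ) (ho : IsOpen O') (hs : O' ⊆ O) : Br Φ Ω₁ Ω₂ ψ₁ ψ₂ O' V κ :=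
  ⟨ho, hb.V_open, hb.smooth.mono hs, fun x hx => hb.mem x (hs hx), fun x hx => hb.uniq x (hs hx)⟩

/-- A branch consists of nondegenerate geodesics near the base point. -/
theorem br_cfg_eventually (h : GFlow F S A K K₂ Φ) (hp₁ : Patch S Ω₁ ψ₁ P₁ W₁)
    {O : Set (N × N)} {V : Set N} {κ : N × N → N}
    (hb : Br Φ Ω₁ Ω₂ ψ₁ ψ₂ O V κ) {x : N × N} (hx : x ∈ O) (hc : Cfg Φ Ω₁ Ω₂ ψ₁ ψ₂ x (κ x)) :
    ∀ᶠ x' in 𝓝 x, x' ∈ O ∧ Cfg Φ Ω₁ Ω₂ ψ₁ ψ₂ x' (κ x') := by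
  have hκc : ContinuousAt κ x := (contDiffAt_of_open hb.isOpen hb.smooth hx).continuousAt
  have hcc : ContinuousAt (fun x : N × N => (x.1, κ x)) x := continuousAt_fst.prodMk hκc
  have e1 := nondeg_eventually h hp₁ (c := fun x : N × N => (x.1, κ x)) hcc hc.1 hc.2.2.2
  filter_upwards [e1, hb.isOpen.mem_nhds hx] with y hy1 hy3
  obtain ⟨g1, g2, -, g3⟩ := hb.mem y hy3
  exact ⟨hy3, g1, g2, g3, hy1⟩

end Pool.Agent.H77.ND
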