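import Pool.Agent.H77.ND.Cross

/-!
# Triple crossings persist near residual pairs
-/

set_option autoImplicit false

open scoped InnerProductSpace Topology ContDiff
open Set Filter

namespace Pool.Agent.H77.ND

open Pool.Agent.H91.GE hiding G1 G11 Nondeg Br exists_br cF smooth_cF Cfg mem_TSet_of_map
open Pool.Agent.H59.LV Pool.Agent.H59.ND

variable {E F N : Type*} [NormedAddCommGroup E] [InnerProductSpace ℝ E] [FiniteDimensional ℝ E]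
  [NormedAddCommGroup F] [InnerProductSpace ℝ F] [FiniteDimensional ℝ F]
  [NormedAddCommGroup N] [NormedSpace ℝ N] [FiniteDimensional ℝ N]
  {S : Set E} {A : E × E → E} {K K₂ : NNReal} {Φ : ℝ → E × E → E × E}
  {Ω Ω₁ Ω₂ : Set N} {ψ ψ₁ ψ₂ : N → E} {P P₁ P₂ : E →L[ℝ] N} {W W₁ W₂ : Set E}

/-- Equations of three geodesics with a common point. -/
def Eq3 (Φ : ℝ → E × E → E × E) (ψ₁ ψ₂ : N → E) (x : N × N) (y : (N × N × N) × (ℝ × ℝ × ℝ)) :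
    Prop :=
  G1 Φ ψ₁ (x.1, y.1.1) 1 = ψ₂ x.2 ∧ G1 Φ ψ₁ (x.1, y.1.2.1) 1 = ψ₂ x.2 ∧
    G1 Φ ψ₁ (x.1, y.1.2.2) 1 = ψ₂ x.2 ∧
    G1 Φ ψ₁ (x.1, y.1.1) y.2.1 = G1 Φ ψ₁ (x.1, y.1.2.1) y.2.2.1 ∧
    G1 Φ ψ₁ (x.1, y.1.1) y.2.1 = G1 Φ ψ₁ (x.1, y.1.2.2) y.2.2.2

/-- Three nondegenerate geodesics with a common point. -/
def Tri (Φ : ℝ → E × E → E × E) (Ω₁ Ω₂ : Set N) (ψ₁ ψ₂ : N → E) (x : N × N)
    (y : (N × N × N) × (ℝ × ℝ × ℝ)) : Prop :=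
  Cfg Φ Ω₁ Ω₂ ψ₁ ψ₂ x y.1.1 ∧ Cfg Φ Ω₁ Ω₂ ψ₁ ψ₂ x y.1.2.1 ∧ Cfg Φ Ω₁ Ω₂ ψ₁ ψ₂ x y.1.2.2 ∧
    G1 Φ ψ₁ (x.1, y.1.1) y.2.1 = G1 Φ ψ₁ (x.1, y.1.2.1) y.2.2.1 ∧
    G1 Φ ψ₁ (x.1, y.1.1) y.2.1 = G1 Φ ψ₁ (x.1, y.1.2.2) y.2.2.2 ∧
    Indep (deriv (G1 Φ ψ₁ (x.1, y.1.1)) y.2.1) (deriv (G1 Φ ψ₁ (x.1, y.1.2.1)) y.2.2.1) ∧
    Indep (deriv (G1 Φ ψ₁ (x.1, y.1.1)) y.2.1) (deriv (G1 Φ ψ₁ (x.1, y.1.2.2)) y.2.2.2)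

/-- The configuration persists near `x`. -/
def GoodT (Φ : ℝ → E × E → E × E) (ψ₁ ψ₂ : N → E) (x : N × N)
    (y : (N × N × N) × (ℝ × ℝ × ℝ)) : Prop :=
  ∀ V ∈ 𝓝 y, ∀ᶠ x' in 𝓝 x, ∃ y' ∈ V, Eq3 Φ ψ₁ ψ₂ x' y'

theorem tri_meagre (hdim : Module.finrank ℝ E = Module.finrank ℝ F + Module.finrank ℝ N)
    (h : GFlow F S A K K₂ Φ) (hp₁ : Patch S Ω₁ ψ₁ P₁ W₁) (hc₂ : Patch S Ω₂ ψ₂ P₂ W₂) :
    IsMeagre {x : N × N | ∃ y, Tri Φ Ω₁ Ω₂ ψ₁ ψ₂ x y ∧ ¬ GoodT Φ ψ₁ ψ₂ x y} := by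
  have _i : ProperSpace N := FiniteDimensional.proper_real N
  set B : Set ((N × N) × ((N × N × N) × (ℝ × ℝ × ℝ))) :=
    {b | Tri Φ Ω₁ Ω₂ ψ₁ ψ₂ b.1 b.2 ∧ ¬ GoodT Φ ψ₁ ψ₂ b.1 b.2} with hB
  have h1 : {x : N × N | ∃ y, Tri Φ Ω₁ Ω₂ ψ₁ ψ₂ x y ∧ ¬ GoodT Φ ψ₁ ψ₂ x y} = Prod.fst '' B := by
    ext x
    constructor
    · rintro ⟨y, hy⟩; exact ⟨(x, y), hy, rfl⟩
    · rintro ⟨⟨x', y⟩, hy, rfl⟩; exact ⟨y, hy⟩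
  rw [h1]
  refine meagre_of_local ?_
  rintro ⟨x₀, ⟨⟨w1, w2, w3⟩, s1, s2, s3⟩⟩ ⟨⟨c1, c2, c3, e12, e13, i12, i13⟩, -⟩
  simp only at c1 c2 c3 e12 e13 i12 i13
  obtain ⟨O1, V1, κ1, b1, hx1, hw1, k1⟩ := exists_br h hp₁ hc₂ c1.1 c1.2.1 c1.2.2.1 c1.2.2.2
  obtain ⟨O2, V2, κ2, b2, hx2, hw2, k2⟩ := exists_br h hp₁ hc₂ c2.1 c2.2.1 c2.2.2.1 c2.2.2.2
  obtain ⟨O3, V3, κ3, b3, hx3, hw3, k3⟩ := exists_br h hp₁ hc₂ c3.1 c3.2.1 c3.2.2.1 c3.2.2.2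
  set O : Set (N × N) := O1 ∩ (O2 ∩ O3) with hO
  have hOo : IsOpen O := b1.isOpen.inter (b2.isOpen.inter b3.isOpen)
  have hxO : x₀ ∈ O := ⟨hx1, hx2, hx3⟩
  have sm1 : ContDiffOn ℝ ∞ κ1 O := b1.smooth.mono fun x hx => hx.1
  have sm2 : ContDiffOn ℝ ∞ κ2 O := b2.smooth.mono fun x hx => hx.2.1
  have sm3 : ContDiffOn ℝ ∞ κ3 O := b3.smooth.mono fun x hx => hx.2.2
  have hmO : ∀ x ∈ O, x.1 ∈ Ω₁ := fun x hx => (b1.mem x hx.1).1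
  obtain ⟨O12, V12, σ, hsub12, cr12, hx12, hs12, hσ⟩ := exists_cr hdim h hp₁ hOo sm1 sm2 hmO hxO
    (s₀ := (s1, s2)) (by
      show G1 Φ ψ₁ (x₀.1, κ1 x₀) s1 = G1 Φ ψ₁ (x₀.1, κ2 x₀) s2
      rw [k1, k2]; exact e12) (by
      show Indep (deriv (G1 Φ ψ₁ (x₀.1, κ1 x₀)) s1) (deriv (G1 Φ ψ₁ (x₀.1, κ2 x₀)) s2)
      rw [k1, k2]; exact i12)
  obtain ⟨O13, V13, τ, hsub13, cr13, hx13, hs13, hτ⟩ := exists_cr hdim h hp₁ hOo sm1 sm3 hmO hxO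
    (s₀ := (s1, s3)) (by
      show G1 Φ ψ₁ (x₀.1, κ1 x₀) s1 = G1 Φ ψ₁ (x₀.1, κ3 x₀) s3
      rw [k1, k3]; exact e13) (by
      show Indep (deriv (G1 Φ ψ₁ (x₀.1, κ1 x₀)) s1) (deriv (G1 Φ ψ₁ (x₀.1, κ3 x₀)) s3)
      rw [k1, k3]; exact i13)
  set O' : Set (N × N) := O12 ∩ O13 with hO'
  have hO'o : IsOpen O' := cr12.isOpen.inter cr13.isOpen
  have ho'O : ∀ x ∈ O', x ∈ O := fun x hx => hsub12 hx.1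
  have hc : ∀ (κ : N × N → N) (ρ : N × N → ℝ), ContDiffOn ℝ ∞ κ O → ContinuousOn ρ O' →
      ContinuousOn (fun x => cF Φ ψ₁ κ x (ρ x)) O' := by
    intro κ ρ hκ hρ
    have q1 := (smooth_cF h hp₁ hOo hκ hmO).1.continuousOn
    exact q1.comp (continuousOn_id.prodMk hρ) fun x hx => ⟨ho'O x hx, mem_univ _⟩
  have sσ : ContinuousOn σ O' := cr12.smooth.continuousOn.mono fun x hx => hx.1
  have sτ : ContinuousOn τ O' := cr13.smooth.continuousOn.mono fun x hx => hx.2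
  set C : Set (N × N) := {x ∈ O' | ((cF Φ ψ₁ κ1 x (σ x).1, cF Φ ψ₁ κ1 x (τ x).1, (σ x).1) : E × E × ℝ)
    = (cF Φ ψ₁ κ2 x (σ x).2, cF Φ ψ₁ κ3 x (τ x).2, (τ x).1)} with hC
  have hnd : IsNowhereDense (C \ interior C) :=
    nowhereDense_of_eq hO'o
      ((hc κ1 _ sm1 (continuous_fst.comp_continuousOn sσ)).prodMk
        ((hc κ1 _ sm1 (continuous_fst.comp_continuousOn sτ)).prodMk
          (continuous_fst.comp_continuousOn sσ)))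
      ((hc κ2 _ sm2 (continuous_snd.comp_continuousOn sσ)).prodMk
        ((hc κ3 _ sm3 (continuous_snd.comp_continuousOn sτ)).prodMk
          (continuous_fst.comp_continuousOn sτ)))
  set M : Set ((N × N) × ((N × N × N) × (ℝ × ℝ × ℝ))) :=
    {b | b.1 ∈ O' ∧ (b.2.1.1 ∈ V1 ∧ b.2.1.2.1 ∈ V2 ∧ b.2.1.2.2 ∈ V3) ∧
    ((b.2.2.1, b.2.2.2.1) ∈ V12 ∧ (b.2.2.1, b.2.2.2.2) ∈ V13)} with hM
  have hMo : IsOpen M := by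
    have f1 : Continuous fun b : (N × N) × ((N × N × N) × (ℝ × ℝ × ℝ)) => b.2.1.1 := by fun_prop
    have f2 : Continuous fun b : (N × N) × ((N × N × N) × (ℝ × ℝ × ℝ)) => b.2.1.2.1 := by fun_prop
    have f3 : Continuous fun b : (N × N) × ((N × N × N) × (ℝ × ℝ × ℝ)) => b.2.1.2.2 := by fun_prop
    have f4 : Continuous fun b : (N × N) × ((N × N × N) × (ℝ × ℝ × ℝ)) => (b.2.2.1, b.2.2.2.1) := by
      fun_prop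
    have f5 : Continuous fun b : (N × N) × ((N × N × N) × (ℝ × ℝ × ℝ)) => (b.2.2.1, b.2.2.2.2) := by
      fun_prop
    exact (hO'o.preimage continuous_fst).inter (((b1.V_open.preimage f1).inter
      ((b2.V_open.preimage f2).inter (b3.V_open.preimage f3))).inter
      ((cr12.V_open.preimage f4).inter (cr13.V_open.preimage f5)))
  refine ⟨M, hMo.mem_nhds ⟨⟨hx12, hx13⟩, ⟨hw1, hw2, hw3⟩, hs12, hs13⟩, ?_⟩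
  refine hnd.isMeagre.mono ?_
  rintro x ⟨⟨x', ⟨⟨v1, v2, v3⟩, t1, t2, t3⟩⟩, ⟨⟨⟨d1, d2, d3, f12, f13, j12, j13⟩, hbad⟩, hNx⟩, rfl⟩
  simp only at d1 d2 d3 f12 f13 j12 j13 hbad ⊢
  obtain ⟨n1, ⟨n2, n3, n4⟩, n5, n6⟩ := hNx
  simp only at n1 n2 n3 n4 n5 n6
  have hxO1 : x' ∈ O := hsub12 n1.1
  have u1 : v1 = κ1 x' := b1.uniq x' hxO1.1 v1 n2 d1.2.2.1
  have u2 : v2 = κ2 x' := b2.uniq x' hxO1.2.1 v2 n3 d2.2.2.1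
  have u3 : v3 = κ3 x' := b3.uniq x' hxO1.2.2 v3 n4 d3.2.2.1
  have g12 : cF Φ ψ₁ κ1 x' t1 = cF Φ ψ₁ κ2 x' t2 := by
    show G1 Φ ψ₁ (x'.1, κ1 x') t1 = G1 Φ ψ₁ (x'.1, κ2 x') t2
    rw [← u1, ← u2]; exact f12
  have g13 : cF Φ ψ₁ κ1 x' t1 = cF Φ ψ₁ κ3 x' t3 := by
    show G1 Φ ψ₁ (x'.1, κ1 x') t1 = G1 Φ ψ₁ (x'.1, κ3 x') t3
    rw [← u1, ← u3]; exact f13
  have u4 : (t1, t2) = σ x' := cr12.uniq x' n1.1 (t1, t2) n5 g12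
  have u5 : (t1, t3) = τ x' := cr13.uniq x' n1.2 (t1, t3) n6 g13
  have hxC : x' ∈ C := ⟨n1, by
    rw [← u4, ← u5]
    exact Prod.ext g12 (Prod.ext g13 rfl)⟩
  refine ⟨hxC, fun hint => hbad ?_⟩
  intro V hV
  let Yf : N × N → (N × N × N) × (ℝ × ℝ × ℝ) :=
    fun x => ((κ1 x, κ2 x, κ3 x), ((σ x).1, (σ x).2, (τ x).2))
  have hYx : Yf x' = ((v1, v2, v3), (t1, t2, t3)) := by
    show ((κ1 x', κ2 x', κ3 x'), ((σ x').1, (σ x').2, (τ x').2)) = _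
    rw [← u1, ← u2, ← u3, ← u4, ← u5]
  have hYc : ContinuousAt Yf x' := by
    have q1 : ContinuousAt κ1 x' := (contDiffAt_of_open b1.isOpen b1.smooth hxO1.1).continuousAt
    have q2 : ContinuousAt κ2 x' := (contDiffAt_of_open b2.isOpen b2.smooth hxO1.2.1).continuousAt
    have q3 : ContinuousAt κ3 x' := (contDiffAt_of_open b3.isOpen b3.smooth hxO1.2.2).continuousAt
    have q4 : ContinuousAt σ x' := (contDiffAt_of_open cr12.isOpen cr12.smooth n1.1).continuousAt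
    have q5 : ContinuousAt τ x' := (contDiffAt_of_open cr13.isOpen cr13.smooth n1.2).continuousAt
    exact (q1.prodMk (q2.prodMk q3)).prodMk (q4.fst.prodMk (q4.snd.prodMk q5.snd))
  have hev1 : ∀ᶠ x in 𝓝 x', Yf x ∈ V := hYc.preimage_mem_nhds (by rw [hYx]; exact hV)
  have hev2 : ∀ᶠ x in 𝓝 x', x ∈ C := mem_interior_iff_mem_nhds.1 hint
  filter_upwards [hev1, hev2] with x hx1 hx2
  have hxO2 : x ∈ O := hsub12 hx2.1.1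
  obtain ⟨e1, e2⟩ := Prod.mk.injEq .. ▸ hx2.2
  obtain ⟨e2, e3⟩ := Prod.mk.injEq .. ▸ e2
  refine ⟨Yf x, hx1, (b1.mem x hxO2.1).2.2.2, (b2.mem x hxO2.2.1).2.2.2, (b3.mem x hxO2.2.2).2.2.2,
    e1, ?_⟩
  show G1 Φ ψ₁ (x.1, κ1 x) (σ x).1 = G1 Φ ψ₁ (x.1, κ3 x) (τ x).2
  rw [e3]; exact e2

end Pool.Agent.H77.ND
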